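import Pool.Agent.H853.OS.Irr
import Pool.Agent.H853.G2.Dens

/-!
# Roots of rational polynomials in `ℂ` and in the algebraic closure of `ℚ_ℓ`
-/

set_option autoImplicit false
set_option linter.unusedSectionVars false

namespace Pool.Agent.H853.OS

open Polynomial Pool.Agent.H853.G2

theorem aeval_hom {A B : Type*} [Field A] [Field B] [Algebra ℚ A] [Algebra ℚ B] (φ : A →+* B)
    (a : A) (P : ℚ[X]) : aeval (φ a) P = φ (aeval a P) := by
  rw [aeval_def, aeval_def, hom_eval₂]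
  congr 1
  exact Subsingleton.elim _ _

theorem aeval_map_rat {K Ω : Type*} [Field K] [Field Ω] [Algebra ℚ K] [Algebra ℚ Ω] [Algebra K Ω]
    (z : Ω) (P : ℚ[X]) : aeval z (P.map (algebraMap ℚ K)) = aeval z P := by
  rw [aeval_def, aeval_def, eval₂_map]
  congr 1
  exact Subsingleton.elim _ _

theorem exists_root {A B : Type*} [Field A] [Field B] [Algebra ℚ A] [Algebra ℚ B] (φ : A →+* B)
    {P : ℚ[X]} (hP : P ≠ 0) (hs : (P.map (algebraMap ℚ A)).Splits) {b : B} (hb : aeval b P = 0) :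
    ∃ a, φ a = b ∧ aeval a P = 0 := by
  have h1 : P.map (algebraMap ℚ A) ≠ 0 := (Polynomial.map_ne_zero_iff (algebraMap ℚ A).injective).2 hP
  have h2 : ((P.map (algebraMap ℚ A)).map φ).IsRoot b := by
    rw [IsRoot.def, Polynomial.map_map, eval_map]
    rw [aeval_def] at hb
    rw [← hb]
    congr 1
    exact Subsingleton.elim _ _
  obtain ⟨a, ha⟩ := hs.mem_range_of_isRoot h1 h2
  refine ⟨a, ha, ?_⟩
  apply φ.injective
  rw [← aeval_hom, ha, hb, map_zero]

section transfer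

variable {K Ω : Type*} [Field K] [Field Ω] [CharZero Ω] [Algebra ℚ K] [Algebra K Ω] [IsAlgClosed Ω]

theorem exists_pair (Ω : Type*) [Field Ω] [CharZero Ω] [IsAlgClosed Ω] :
    ∃ (_ : AlgebraicClosure ℚ →+* ℂ) (_ : AlgebraicClosure ℚ →+* Ω), True := by
  have h1 : Algebra.IsAlgebraic ℚ (AlgebraicClosure ℚ) := AlgebraicClosure.isAlgebraic ℚ
  refine ⟨(IsAlgClosed.lift : AlgebraicClosure ℚ →ₐ[ℚ] ℂ).toRingHom,
    (IsAlgClosed.lift : AlgebraicClosure ℚ →ₐ[ℚ] Ω).toRingHom, trivial⟩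

theorem neat_map {P : ℚ[X]} (hP : Neat ℂ P) : Neat Ω (P.map (algebraMap ℚ K)) := by
  obtain ⟨e₁, e₂, -⟩ := exists_pair Ω
  refine ⟨hP.separable.map, fun a b ha hb N hN hab => ?_⟩
  rw [aeval_map_rat] at ha hb
  obtain ⟨a', rfl, ha'⟩ := exists_root e₂ hP.separable.ne_zero (IsAlgClosed.splits _) ha
  obtain ⟨b', rfl, hb'⟩ := exists_root e₂ hP.separable.ne_zero (IsAlgClosed.splits _) hb
  rw [← map_pow, ← map_pow] at hab
  have h1 := e₂.injective hab
  have h2 : e₁ a' ^ N = e₁ b' ^ N := by rw [← map_pow, ← map_pow, h1]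
  have h3 := hP.powers (e₁ a') (e₁ b') (by rw [aeval_hom, ha', map_zero])
    (by rw [aeval_hom, hb', map_zero]) N hN h2
  rw [e₁.injective h3]

theorem separates_map {P Q : ℚ[X]} (hP : P ≠ 0) (hQ : Q ≠ 0) (h : Separates P Q) :
    ∃ a : Ω, aeval a (P.map (algebraMap ℚ K)) = 0 ∧ ∀ b : Ω,
      aeval b (Q.map (algebraMap ℚ K)) = 0 → ∀ N : ℕ, 0 < N → a ^ N ≠ b ^ N := by
  obtain ⟨e₁, e₂, -⟩ := exists_pair Ω
  obtain ⟨a, ha, hab⟩ := h
  obtain ⟨a', rfl, ha'⟩ := exists_root e₁ hP (IsAlgClosed.splits _) ha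
  refine ⟨e₂ a', by rw [aeval_map_rat, aeval_hom, ha', map_zero], fun b hb N hN heq => ?_⟩
  rw [aeval_map_rat] at hb
  obtain ⟨b', rfl, hb'⟩ := exists_root e₂ hQ (IsAlgClosed.splits _) hb
  rw [← map_pow, ← map_pow] at heq
  have h1 := e₂.injective heq
  refine hab (e₁ b') (by rw [aeval_hom, hb', map_zero]) N hN ?_
  rw [← map_pow, ← map_pow, h1]

variable {L : IntermediateField ℚ ℂ} {τ : L → L} {P : ℚ[X]}

theorem splits_of_roots (hL : ∀ z : ℂ, aeval z P = 0 → z ∈ L) :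
    (P.map (algebraMap ℚ L)).Splits := by
  refine Splits.of_splits_map (algebraMap L ℂ) (IsAlgClosed.splits _) fun a ha => ?_
  rw [Polynomial.map_map] at ha
  have h1 : aeval a P = 0 := by
    have h2 := (mem_roots'.1 ha).2
    rw [IsRoot.def, eval_map] at h2
    rw [aeval_def, ← h2]
    congr 1
  exact ⟨⟨a, hL a h1⟩, rfl⟩

theorem stable_pull (ι : L →+* Ω) (σ : Ω ≃ₐ[K] Ω) (hσ : ∀ x, σ (ι x) = ι (τ x)) (hP : P ≠ 0)
    (hL : ∀ z : ℂ, aeval z P = 0 → z ∈ L) {S : Finset Ω}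
    (hS : StableRoots (Subgroup.zpowers σ) (P.map (algebraMap ℚ K)) S) :
    ∃ S' : Finset L, StableIn τ P S' ∧ S'.card = S.card := by
  classical
  refine ⟨S.preimage ι ι.injective.injOn, ⟨fun x hx => ?_, fun x hx => ?_⟩, ?_⟩
  · rw [Finset.mem_preimage] at hx
    have h1 := hS.root _ hx
    rw [aeval_map_rat, aeval_hom] at h1
    have h2 : aeval x P = 0 := ι.injective (h1.trans (map_zero ι).symm)
    have h3 : aeval ((algebraMap L ℂ) x) P = 0 := by rw [aeval_hom, h2, map_zero]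
    exact h3
  · rw [Finset.mem_preimage] at hx ⊢
    rw [← hσ]
    exact hS.stable σ (Subgroup.mem_zpowers σ) _ hx
  · refine Finset.card_bij (fun x _ => ι x) (fun x hx => Finset.mem_preimage.1 hx)
      (fun x _ y _ h => ι.injective h) fun b hb => ?_
    have h1 := hS.root _ hb
    rw [aeval_map_rat] at h1
    obtain ⟨a, rfl, -⟩ := exists_root ι hP (splits_of_roots hL) h1
    exact ⟨a, Finset.mem_preimage.2 hb, rfl⟩

theorem stable_push (ι : L →+* Ω) (σ : Ω ≃ₐ[K] Ω) (hσ : ∀ x, σ (ι x) = ι (τ x))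
    {S' : Finset L} (hS : StableIn τ P S') :
    ∃ S : Finset Ω, StableRoots (Subgroup.zpowers σ) (P.map (algebraMap ℚ K)) S ∧
      S.card = S'.card := by
  classical
  set S : Finset Ω := S'.map ⟨ι, ι.injective⟩ with hSd
  have h1 : ∀ x ∈ S, σ x ∈ S := by
    intro x hx
    obtain ⟨y, hy, rfl⟩ := Finset.mem_map.1 hx
    refine Finset.mem_map.2 ⟨τ y, hS.stable y hy, ?_⟩
    exact (hσ y).symm
  have h2 : ∀ x ∈ S, σ⁻¹ x ∈ S := by
    intro x hx
    have h3 : S.image σ = S := by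
      refine Finset.eq_of_subset_of_card_le ?_ ?_
      · intro y hy
        obtain ⟨z, hz, rfl⟩ := Finset.mem_image.1 hy
        exact h1 z hz
      · rw [Finset.card_image_of_injective _ σ.injective]
    rw [← h3] at hx
    obtain ⟨z, hz, rfl⟩ := Finset.mem_image.1 hx
    have h4 : σ⁻¹ (σ z) = z := σ.symm_apply_apply z
    rw [h4]
    exact hz
  let H : Subgroup (Ω ≃ₐ[K] Ω) :=
    { carrier := {g | (∀ x ∈ S, g x ∈ S) ∧ ∀ x ∈ S, g⁻¹ x ∈ S}
      mul_mem' := by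
        rintro a b ⟨ha, ha'⟩ ⟨hb, hb'⟩
        refine ⟨fun x hx => ha _ (hb x hx), fun x hx => ?_⟩
        rw [mul_inv_rev]
        exact hb' _ (ha' x hx)
      one_mem' := ⟨fun x hx => hx, fun x hx => by rw [inv_one]; exact hx⟩
      inv_mem' := by
        rintro a ⟨ha, ha'⟩
        exact ⟨ha', fun x hx => by rw [inv_inv]; exact ha x hx⟩ }
  have h3 : Subgroup.zpowers σ ≤ H := by
    rw [Subgroup.zpowers_le]
    exact ⟨h1, h2⟩
  refine ⟨S, ⟨fun x hx => ?_, fun g hg x hx => (h3 hg).1 x hx⟩, Finset.card_map _⟩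
  obtain ⟨y, hy, rfl⟩ := Finset.mem_map.1 hx
  have h4 := hS.root y hy
  have h5 : aeval y P = 0 := by
    apply (algebraMap L ℂ).injective
    rw [← aeval_hom, map_zero]
    exact h4
  rw [aeval_map_rat]
  change aeval (ι y) P = 0
  rw [aeval_hom, h5, map_zero]

end transfer

end Pool.Agent.H853.OS
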