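import Pool.Agent.H853.OS.Tup
import Pool.Agent.H853.OS.Trf
import Pool.Agent.H853.CC.Dens

/-!
# The degree of the field generated by the roots
-/

set_option autoImplicit false
set_option linter.unusedSectionVars false

namespace Pool.Agent.H853.OS

open Polynomial IntermediateField Pool.Agent.W522.C Pool.Agent.H853.G2

theorem gsz_adjoin_le {F K : Type*} [Field F] [Field K] [Algebra F K] (Z : Finset K)
    [FiniteDimensional F (IntermediateField.adjoin F (Z : Set K))]
    (hZ : ∀ (σ : Gal(IntermediateField.adjoin F (Z : Set K)/F)) (z : K) (hz : z ∈ Z),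
      ((σ ⟨z, IntermediateField.subset_adjoin F _ hz⟩ : IntermediateField.adjoin F (Z : Set K)) : K)
        ∈ Z) : gsz (IntermediateField.adjoin F (Z : Set K)) ≤ Z.card.factorial := by
  classical
  let N := IntermediateField.adjoin F (Z : Set K)
  let f : Gal(N/F) → (Z → Z) := fun σ z => ⟨_, hZ σ z.1 z.2⟩
  have hinj1 : ∀ σ, Function.Injective (f σ) := by
    intro σ x y hxy
    have h1 : ((f σ x : Z) : K) = (f σ y : Z) := by rw [hxy]
    have h2 : σ ⟨x.1, IntermediateField.subset_adjoin F _ x.2⟩ =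
        σ ⟨y.1, IntermediateField.subset_adjoin F _ y.2⟩ := Subtype.ext h1
    have h3 := σ.injective h2
    have h4 : (x : K) = y := congrArg (fun u : N => (u : K)) h3
    exact Subtype.ext h4
  let g : Gal(N/F) → Equiv.Perm Z := fun σ =>
    Equiv.ofBijective (f σ) (Finite.injective_iff_bijective.1 (hinj1 σ))
  have hg : Function.Injective g := by
    intro σ τ h
    have h1 : ∀ z (hz : z ∈ Z), σ ⟨z, IntermediateField.subset_adjoin F _ hz⟩ =
        τ ⟨z, IntermediateField.subset_adjoin F _ hz⟩ := by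
      intro z hz
      have h2 := congrArg (fun e : Equiv.Perm Z => ((e ⟨z, hz⟩ : Z) : K)) h
      exact Subtype.ext h2
    apply AlgEquiv.coe_toAlgHom_injective
    refine IntermediateField.adjoin_algHom_ext F fun z hz => ?_
    exact h1 z hz
  unfold gsz
  have h2 := Nat.card_le_card_of_injective g hg
  rw [Nat.card_eq_fintype_card (α := Equiv.Perm Z), Fintype.card_perm, Fintype.card_coe] at h2
  exact h2

theorem gsz_field_le {ι : Type} [Fintype ι] (P : ι → ℚ[X]) (hP : ∀ i, P i ≠ 0)
    [FiniteDimensional ℚ (IntermediateField.adjoin ℚ {z : ℂ | ∃ i, aeval z (P i) = 0})] :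
    gsz (IntermediateField.adjoin ℚ {z : ℂ | ∃ i, aeval z (P i) = 0}) ≤
      (∑ i, (P i).natDegree).factorial := by
  classical
  let Z : Finset ℂ := Finset.univ.biUnion fun i => rts ℂ (P i)
  have hZ : {z : ℂ | ∃ i, aeval z (P i) = 0} = (Z : Set ℂ) := by
    ext z
    rw [Set.mem_ofPred_eq, Finset.mem_coe, Finset.mem_biUnion]
    constructor
    · rintro ⟨i, hi⟩
      exact ⟨i, Finset.mem_univ i, (mem_rts (hP i)).2 hi⟩
    · rintro ⟨i, -, hi⟩
      exact ⟨i, (mem_rts (hP i)).1 hi⟩
  have hcard : Z.card ≤ ∑ i, (P i).natDegree := by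
    refine Finset.card_biUnion_le.trans (Finset.sum_le_sum fun i _ => ?_)
    rw [rts]
    refine (Multiset.toFinset_card_le _).trans ((card_roots' _).trans ?_)
    rw [natDegree_map]
  have hfin : FiniteDimensional ℚ (IntermediateField.adjoin ℚ (Z : Set ℂ)) := by
    rw [← hZ]
    infer_instance
  rw [hZ]
  refine (gsz_adjoin_le Z fun σ z hz => ?_).trans (Nat.factorial_le hcard)
  obtain ⟨i, -, hi⟩ := Finset.mem_biUnion.1 hz
  refine Finset.mem_biUnion.2 ⟨i, Finset.mem_univ i, (mem_rts (hP i)).2 ?_⟩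
  have h1 : aeval z (P i) = 0 := (mem_rts (hP i)).1 hi
  set x : IntermediateField.adjoin ℚ (Z : Set ℂ) :=
    ⟨z, IntermediateField.subset_adjoin ℚ _ hz⟩ with hx
  have h2 : aeval x (P i) = 0 := by
    apply (algebraMap (IntermediateField.adjoin ℚ (Z : Set ℂ)) ℂ).injective
    rw [← aeval_hom, map_zero]
    exact h1
  have h3 : aeval (σ x) (P i) = 0 := by
    have h4 := aeval_hom (σ : _ →+* IntermediateField.adjoin ℚ (Z : Set ℂ)) x (P i)
    rw [h2, map_zero] at h4
    exact h4
  have h4 := aeval_hom (algebraMap (IntermediateField.adjoin ℚ (Z : Set ℂ)) ℂ) (σ x) (P i)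
  rw [h3, map_zero] at h4
  exact h4

end Pool.Agent.H853.OS
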