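import Pool.Agent.H853.OS.Defs
import Pool.Graph.R_seed8.Y114.RM.Final
import Pool.Graph.R_seed8.W522.C.C2
import Pool.Agent.H853.SR.Fin

/-!
# Systems of representations with elements with rational characteristic polynomials: definitions
-/

set_option autoImplicit false

namespace Pool.Agent.H853.OS

open Module Polynomial Pool.Agent.Y114.TF Pool.Agent.Y114.RM Pool.Agent.H853.SR

variable {Γ : Type} [Group Γ] {ι : Type} {n : ι → ℕ}

section one

variable {ℓ : ℕ} [Fact ℓ.Prime] (ρ : Reps Γ n ℓ) (𝔤 : EndSpace n ℓ)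

/-- `γ` is strongly regular for `𝔤`: it normalizes `𝔤`; the elements of `𝔤 ⊗ ℂ` in the generalized
eigenspace for the eigenvalue `1` of the conjugation by `γ` commute with each other; the other
eigenvalues are simple, and they are not roots of unity (see `H853.SR.StronglyRegular`).  Here `ℂ` is
an extension of `ℚ_ℓ` by the choice of an embedding. -/
def IsStronglyRegular (γ : Γ) : Prop :=
  ∃ j : ℚ_[ℓ] →+* ℂ, letI := j.toAlgebra; StronglyRegular (sumRep ρ) 𝔤 γ

/-- The elements of `𝔤` which act on each summand as a scalar are the multiples of the weight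
operator, which is the multiplication by `w i` on the `i`-th summand. -/
def ScalarsAreWeights (w : ι → ℤ) : Prop :=
  ScalarsWeights (k := ℚ_[ℓ]) (V := fun i => Fin (n i) → ℚ_[ℓ]) 𝔤 w

/-- One strongly regular element, one pure element of the weights `w i`, and the condition on the
scalars in `𝔤`. -/
structure RegularAt (w : ι → ℤ) : Prop where
  regular : ∃ γ, IsStronglyRegular ρ 𝔤 γ
  pure : ∃ (γ : Γ) (j : ℚ_[ℓ] →+* ℂ) (q : ℕ), 1 < q ∧
    ∀ i, ∀ z ∈ ((ρ i γ).charpoly.map j).roots, ‖z‖ ^ 2 = (q : ℝ) ^ w i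
  weights : ScalarsAreWeights 𝔤 w

/-- The rank of `𝔤` is at most `r`: the centralizer in `𝔤` of some element of `𝔤` has at most the
dimension `r`. -/
def HasRankLE (r : ℕ) : Prop :=
  RankAtMostFor (k := ℚ_[ℓ]) (V := ∀ i, Fin (n i) → ℚ_[ℓ]) 𝔤 r

/-- There is an element of maximal rank: the number of multiplicatively independent eigenvalues is at
least the rank of `𝔤`. -/
def MaximalRankAt : Prop :=
  ∃ (γ : Γ) (r : ℕ), IndependentEigenvalues ρ (AlgebraicClosure ℚ_[ℓ]) γ r ∧ HasRankLE 𝔤 r

/-- Any two summands are different, for the eigenvalues in the algebraic closure of `ℚ_ℓ`. -/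
def DifferentAt : Prop := DifferentFor ρ (AlgebraicClosure ℚ_[ℓ])

/-- A group of automorphisms of the algebraic closure of `ℚ_ℓ` over `ℚ_ℓ`. -/
abbrev LocalGroup (ℓ : ℕ) [Fact ℓ.Prime] : Type :=
  Subgroup (AlgebraicClosure ℚ_[ℓ] ≃ₐ[ℚ_[ℓ]] AlgebraicClosure ℚ_[ℓ])

/-- The conditions on the orbits of `G` on the eigenvalues (see `OrbitsFor`). -/
def OrbitsAt (G : LocalGroup ℓ) : Prop := OrbitsFor ρ G

/-- The representation is semisimple (for all subgroups of finite index), and the Tate tensors are
those killed by `𝔤`. -/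
def MumfordTate : Prop := Semisimple ρ ∧ TateTensorsOf ρ 𝔤

end one

variable (ρ : ∀ (ℓ : ℕ) [Fact ℓ.Prime], Reps Γ n ℓ) (𝔤 : ∀ (ℓ : ℕ) [Fact ℓ.Prime], EndSpace n ℓ)

/-- An element `γ` (a Frobenius element) which acts, for all `ℓ` outside a finite set, on the `i`-th
summand with the same characteristic polynomial `P i ∈ ℚ[T]`. -/
structure Element where
  /-- the element -/
  γ : Γ
  /-- the characteristic polynomials -/
  P : ι → ℚ[X]
  /-- finitely many exceptional primes -/
  bad : Finset ℕ
  charpoly : ∀ (ℓ : ℕ) [Fact ℓ.Prime], ℓ ∉ bad → ∀ i,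
    (ρ ℓ i γ).charpoly = (P i).map (algebraMap ℚ ℚ_[ℓ])

variable {ρ}

/-- The subfield of `ℂ` generated by the complex roots of all the `P i`. -/
noncomputable def Element.field (e : Element ρ) : IntermediateField ℚ ℂ :=
  IntermediateField.adjoin ℚ {z | ∃ i, aeval z (e.P i) = 0}

variable (ρ)

/-- One strongly regular element, one pure element of the weights `w i`, and the condition on the
scalars in `𝔤 ℓ`. -/
structure Regular (w : ι → ℤ) : Prop where
  regular : ∃ e : Element ρ, ∀ (ℓ : ℕ) [Fact ℓ.Prime], ℓ ∉ e.bad →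
    IsStronglyRegular (ρ ℓ) (𝔤 ℓ) e.γ
  pure : ∃ (e : Element ρ) (q : ℕ), 1 < q ∧ ∀ i, ∀ z : ℂ, aeval z (e.P i) = 0 →
    ‖z‖ ^ 2 = (q : ℝ) ^ w i
  weights : ∀ (ℓ : ℕ) [Fact ℓ.Prime], ScalarsAreWeights (𝔤 ℓ) w

/-- There is an element of maximal rank: the number of multiplicatively independent roots of the `P i`
is at least the rank of `𝔤 ℓ`. -/
def MaximalRank : Prop :=
  ∃ (e : Element ρ) (r : ℕ), IndependentRoots r e.P ∧
    ∀ (ℓ : ℕ) [Fact ℓ.Prime], HasRankLE (𝔤 ℓ) r

/-- Any two summands are different: for `i ≠ j` there is an element with a root of `P i` no power of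
which is a power (with the same positive exponent) of a root of `P j`. -/
def Different : Prop := ∀ i j, i ≠ j → ∃ e : Element ρ, Separates (e.P i) (e.P j)

/-- Finitely many elements, a finite Galois extension `L` of `ℚ` which contains the roots of all their
polynomials, and a set `T` of automorphisms `τ` of `L` such that the orbits of `τ` satisfy the
conditions of `OrbitsFor`. -/
structure Witness where
  /-- the index set -/
  A : Type
  finite : Finite A
  /-- the elements -/
  e : A → Element ρ
  /-- the field -/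
  L : IntermediateField ℚ ℂ
  finiteDimensional : FiniteDimensional ℚ L
  galois : @IsGalois ℚ _ L _ (IntermediateField.algebra' L)
  /-- the automorphisms -/
  T : Finset (Aut L)
  roots : ∀ a i, ∀ z : ℂ, aeval z ((e a).P i) = 0 → z ∈ L
  sum : ∀ τ ∈ T, ∀ i d, 0 < d → d < n i → ∃ a, Neat ℂ ((e a).P i) ∧
    ∀ S : Finset L, StableIn τ ((e a).P i) S → S.card ≠ d
  divisor : ∀ τ ∈ T, ∀ i, 0 < n i → ∀ p : ℕ, p.Prime → p ∣ n i → ∃ a, Neat ℂ ((e a).P i) ∧
    ∃ S : Finset L, StableIn τ ((e a).P i) S ∧ ¬ p ∣ S.card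

variable {ρ}

/-- The degree of the field. -/
noncomputable def Witness.degree (W : Witness ρ) : ℕ := finrank ℚ W.L

/-- The polynomials `P i` are neat, and for each `i` and `0 < d < n i` there is an automorphism of the
field generated by all roots for which no union of orbits on the roots of `P i` has `d` elements. -/
structure Element.Rich (e : Element ρ) : Prop where
  neat : ∀ i, Neat ℂ (e.P i)
  sum : ∀ i d, 0 < d → d < n i → ∃ τ : Aut e.field, ∀ S : Finset e.field,
    StableIn τ (e.P i) S → S.card ≠ d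

/-- For every number field `M ⊆ ℂ` the field of some member of `𝒲` is linearly disjoint from `M`. -/
def Independent (𝒲 : Set (Element ρ)) : Prop :=
  ∀ M : IntermediateField ℚ ℂ, FiniteDimensional ℚ M → ∃ e ∈ 𝒲, e.field ⊓ M ≤ ⊥

variable (ρ)

/-- The prime numbers `ℓ` with the property `MumfordTate`. -/
def goodPrimes : Set ℕ := {ℓ | ∃ _ : Fact ℓ.Prime, MumfordTate (ρ ℓ) (𝔤 ℓ)}

end Pool.Agent.H853.OS
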