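import Pool.Agent.H853.OS.Rank
import Pool.Agent.H853.OS.Bnd
import Pool.Agent.H853.OS.Sys

/-!
# The Mumford-Tate conjecture from orbits on Frobenius eigenvalues: the proofs for all primes
-/

set_option autoImplicit false
set_option linter.unusedSectionVars false

namespace Pool.Agent.H853.OS

open Module Polynomial Pool.Agent.Y114.TF Pool.Agent.Y114.GF Pool.Agent.Y114.MU Pool.Agent.Y114.RM
  Pool.Agent.H204R3.GP Pool.Agent.NH34.BD Pool.Agent.H853.SR Pool.Agent.H853.CC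
  Pool.Agent.H853.G2 Pool.Agent.W522.C

section proofs

variable {Γ : Type} [Group Γ] [TopologicalSpace Γ] [IsTopologicalGroup Γ] [CompactSpace Γ]
  {ι : Type} [Fintype ι] [DecidableEq ι] {n : ι → ℕ}

theorem local_result {ℓ : ℕ} [Fact ℓ.Prime] (ρ : Reps Γ n ℓ) (hρ : Conts ρ) (𝔤 : EndSpace n ℓ)
    (h𝔤 : Motivic ρ 𝔤) (w : ι → ℤ) (hb : MaximalRankAt ρ 𝔤 ∨ RegularAt ρ 𝔤 w)
    (hd : DifferentAt ρ)
    (G : Subgroup (AlgebraicClosure ℚ_[ℓ] ≃ₐ[ℚ_[ℓ]] AlgebraicClosure ℚ_[ℓ]))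
    (hG : OrbitsAt ρ G) : MumfordTate ρ 𝔤 := by
  rcases hb with ⟨γ, r, hr, hrk⟩ | hb
  · exact local_rank ρ hρ 𝔤 h𝔤 G (fun i => hG.sum i) (fun i => hG.divisor i) hd γ r hr hrk
  obtain ⟨γ₀, j₀, hγ₀⟩ := hb.regular
  obtain ⟨γ₁, j, q, hq, hpure⟩ := hb.pure
  have h6 : ∀ L : Submodule ℚ_[ℓ] (End ℚ_[ℓ] (∀ i, Fin (n i) → ℚ_[ℓ])),
      (∀ X, X ∈ L ↔ X ∈ LT (sumRep ρ)) → scal (fun i => (w i : ℚ_[ℓ])) ∈ L := by
    intro L hL
    let _ : Algebra ℚ_[ℓ] ℂ := j.toAlgebra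
    refine scal_mem ρ γ₁ hq w (fun i z hz => hpure i z ?_) hL
    rw [mem_roots (Polynomial.map_ne_zero (ρ i γ₁).charpoly_monic.ne_zero), IsRoot.def, eval_map]
    exact hz
  let _ : Algebra ℚ_[ℓ] ℂ := j₀.toAlgebra
  exact local_orbits ρ hρ 𝔤 h𝔤 G (fun i => hG.sum i) (fun i => hG.divisor i) hd γ₀ hγ₀ w
    hb.weights h6

theorem regular_at {ρ : ∀ (ℓ : ℕ) [Fact ℓ.Prime], Reps Γ n ℓ}
    {𝔤 : ∀ (ℓ : ℕ) [Fact ℓ.Prime], EndSpace n ℓ} {w : ι → ℤ}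
    (hb : MaximalRank ρ 𝔤 ∨ Regular ρ 𝔤 w) :
    ∃ bad : Finset ℕ, ∀ (ℓ : ℕ) [Fact ℓ.Prime], ℓ ∉ bad →
      MaximalRankAt (ρ ℓ) (𝔤 ℓ) ∨ RegularAt (ρ ℓ) (𝔤 ℓ) w := by
  classical
  rcases hb with ⟨e, r, hr, hrk⟩ | hb
  · exact ⟨e.bad, fun ℓ _ hℓ => Or.inl ⟨e.γ, r, hasRank_of (ne_zero_of_char e.charpoly)
      (e.charpoly ℓ hℓ) hr, hrk ℓ⟩⟩
  obtain ⟨e₀, h₀⟩ := hb.regular
  obtain ⟨e₁, q, hq, h₁⟩ := hb.pure
  refine ⟨e₀.bad ∪ e₁.bad, fun ℓ _ hℓ => Or.inr ?_⟩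
  rw [Finset.mem_union, not_or] at hℓ
  obtain ⟨hℓ0, hℓ1⟩ := hℓ
  have hreg := h₀ ℓ hℓ0
  obtain ⟨j, hj⟩ := hreg
  refine ⟨⟨e₀.γ, j, hj⟩, ⟨e₁.γ, j, q, hq, fun i z hz => ?_⟩, hb.weights ℓ⟩
  rw [e₁.charpoly ℓ hℓ1 i, Polynomial.map_map] at hz
  refine h₁ i z ?_
  have h3 := (mem_roots'.1 hz).2
  rw [IsRoot.def, eval_map] at h3
  rw [aeval_def, ← h3]
  congr 1
  exact Subsingleton.elim _ _

theorem different_at {ρ : ∀ (ℓ : ℕ) [Fact ℓ.Prime], Reps Γ n ℓ} (hd : Different ρ) :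
    ∃ bad : Finset ℕ, ∀ (ℓ : ℕ) [Fact ℓ.Prime], ℓ ∉ bad → DifferentAt (ρ ℓ) := by
  classical
  have h2 : ∀ p : ι × ι, ∃ bad : Finset ℕ, ∀ (ℓ : ℕ) [Fact ℓ.Prime], ℓ ∉ bad → p.1 ≠ p.2 →
      ∃ γ, ∃ a : AlgebraicClosure ℚ_[ℓ], aeval a (ρ ℓ p.1 γ).charpoly = 0 ∧
        ∀ b : AlgebraicClosure ℚ_[ℓ], aeval b (ρ ℓ p.2 γ).charpoly = 0 → ∀ N : ℕ, 0 < N →
          a ^ N ≠ b ^ N := by
    intro p
    by_cases hp : p.1 = p.2
    · exact ⟨∅, fun ℓ _ _ h => absurd hp h⟩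
    · obtain ⟨e, he⟩ := hd p.1 p.2 hp
      refine ⟨e.bad, fun ℓ _ hℓ _ => ?_⟩
      obtain ⟨a, ha, hab⟩ := separates_map (K := ℚ_[ℓ]) (Ω := AlgebraicClosure ℚ_[ℓ])
        (ne_zero_of_char e.charpoly p.1) (ne_zero_of_char e.charpoly p.2) he
      refine ⟨e.γ, a, ?_, fun b hb => hab b ?_⟩
      · rw [e.charpoly ℓ hℓ p.1]
        exact ha
      · rw [← e.charpoly ℓ hℓ p.2]
        exact hb
  choose bad hbad using h2
  exact ⟨Finset.univ.biUnion bad, fun ℓ _ hℓ i k hik => hbad (i, k) ℓ (fun h =>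
    hℓ (Finset.mem_biUnion.2 ⟨(i, k), Finset.mem_univ _, h⟩)) hik⟩

/-- All data which do not concern the orbits, at almost all primes. -/
theorem background_at {ρ : ∀ (ℓ : ℕ) [Fact ℓ.Prime], Reps Γ n ℓ}
    {𝔤 : ∀ (ℓ : ℕ) [Fact ℓ.Prime], EndSpace n ℓ} {w : ι → ℤ}
    (hb : MaximalRank ρ 𝔤 ∨ Regular ρ 𝔤 w) (hd : Different ρ) :
    ∃ bad : Finset ℕ, ∀ (ℓ : ℕ) [Fact ℓ.Prime], ℓ ∉ bad →
      (MaximalRankAt (ρ ℓ) (𝔤 ℓ) ∨ RegularAt (ρ ℓ) (𝔤 ℓ) w) ∧ DifferentAt (ρ ℓ) := by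
  classical
  obtain ⟨b1, h1⟩ := regular_at hb
  obtain ⟨b2, h2⟩ := different_at hd
  refine ⟨b1 ∪ b2, fun ℓ _ hℓ => ?_⟩
  rw [Finset.mem_union, not_or] at hℓ
  exact ⟨h1 ℓ hℓ.1, h2 ℓ hℓ.2⟩

theorem orbits_of_lift {ρ : ∀ (ℓ : ℕ) [Fact ℓ.Prime], Reps Γ n ℓ} (W : Witness ρ) {τ : AG W.L}
    (hτ : τ ∈ W.T) {ℓ : ℕ} [Fact ℓ.Prime] (hbad : ∀ a, ℓ ∉ (W.e a).bad)
    (h : Lifts (τ : W.L → W.L) ℓ) : ∃ G, OrbitsAt (ρ ℓ) G := by
  obtain ⟨ι', σ, hσ⟩ := h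
  refine ⟨Subgroup.zpowers σ, fun i d hd hdn => ?_, fun i hi p hp hpn => ?_⟩
  · obtain ⟨a, hn, hS⟩ := W.sum τ hτ i d hd hdn
    refine ⟨(W.e a).γ, ?_, ?_⟩
    · rw [(W.e a).charpoly ℓ (hbad a) i]
      exact neat_map hn
    · rw [(W.e a).charpoly ℓ (hbad a) i]
      intro S hS'
      obtain ⟨S', h1, h2⟩ := stable_pull ι' σ hσ hn.separable.ne_zero (W.roots a i) hS'
      rw [← h2]
      exact hS S' h1
  · obtain ⟨a, hn, S', hS', hpS⟩ := W.divisor τ hτ i hi p hp hpn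
    refine ⟨(W.e a).γ, ?_, ?_⟩
    · rw [(W.e a).charpoly ℓ (hbad a) i]
      exact neat_map hn
    · rw [(W.e a).charpoly ℓ (hbad a) i]
      obtain ⟨S, h1, h2⟩ := stable_push ι' σ hσ hS'
      exact ⟨S, h1, by rw [h2]; exact hpS⟩

theorem exists_bad {ρ : ∀ (ℓ : ℕ) [Fact ℓ.Prime], Reps Γ n ℓ} (W : Witness ρ) :
    ∃ bad : Finset ℕ, ∀ ℓ, ℓ ∉ bad → ∀ a, ℓ ∉ (W.e a).bad := by
  classical
  have := W.finite
  have := Fintype.ofFinite W.A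
  exact ⟨Finset.univ.biUnion fun a => (W.e a).bad, fun ℓ hℓ a h =>
    hℓ (Finset.mem_biUnion.2 ⟨a, Finset.mem_univ a, h⟩)⟩

theorem density_witness (ρ : ∀ (ℓ : ℕ) [Fact ℓ.Prime], Reps Γ n ℓ)
    (hρ : ∀ (ℓ : ℕ) [Fact ℓ.Prime], Conts (ρ ℓ)) (𝔤 : ∀ (ℓ : ℕ) [Fact ℓ.Prime], EndSpace n ℓ)
    (h𝔤 : ∀ (ℓ : ℕ) [Fact ℓ.Prime], Motivic (ρ ℓ) (𝔤 ℓ)) (w : ι → ℤ)
    (hb : MaximalRank ρ 𝔤 ∨ Regular ρ 𝔤 w) (hd : Different ρ) (W : Witness ρ) : LowerDensity (goodPrimes ρ 𝔤) (W.T.card / W.degree) := by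
  classical
  obtain ⟨bad, hbad⟩ := background_at hb hd
  obtain ⟨bad', hbad'⟩ := exists_bad W
  have hfin := W.finiteDimensional
  have h3 := density_stepV (J := W.T) (L := fun _ => W.L) (fun t => t.1) (fun _ => bad ∪ bad')
    W.L W.finiteDimensional W.galois W.T.card (by
      rw [← Set.ncard_coe_finset W.T]
      refine Set.ncard_le_ncard ?_ (Set.toFinite _)
      intro g hg
      exact ⟨⟨g, hg⟩, le_rfl, fun x hx => rfl⟩)
  have h4 : Nat.card (AG W.L) = Module.finrank ℚ W.L :=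
    @IsGalois.card_aut_eq_finrank ℚ _ W.L _ (IntermediateField.algebra' W.L) W.finiteDimensional
      W.galois
  rw [Witness.degree, ← h4]
  refine LowerDensity.mono h3 ?_
  rintro ℓ - ⟨hℓ, t, ht, hlift⟩
  have : Fact ℓ.Prime := ⟨hℓ⟩
  rw [Finset.mem_union, not_or] at ht
  obtain ⟨G, hG⟩ := orbits_of_lift W t.2 (hbad' ℓ ht.2) hlift
  exact ⟨⟨hℓ⟩, local_result (ρ ℓ) (hρ ℓ) (𝔤 ℓ) (h𝔤 ℓ) w (hbad ℓ ht.1).1 (hbad ℓ ht.1).2
    G hG⟩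

theorem natDegree_P {ρ : ∀ (ℓ : ℕ) [Fact ℓ.Prime], Reps Γ n ℓ} (e : Element ρ) (i : ι) :
    (e.P i).natDegree = n i := by
  obtain ⟨ℓ, hℓ, h1⟩ := Nat.exists_infinite_primes (e.bad.sup id + 1)
  have : Fact ℓ.Prime := ⟨h1⟩
  have h2 : ℓ ∉ e.bad := fun h3 => by
    have h4 := Finset.le_sup (f := id) h3
    simp only [id] at h4
    omega
  have h3 := congrArg natDegree (e.charpoly ℓ h2 i)
  rw [natDegree_map, natDegree_charpoly] at h3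
  exact h3.symm

/-- The witness made from a tuple of elements with independent fields. -/
theorem exists_witness {ρ : ∀ (ℓ : ℕ) [Fact ℓ.Prime], Reps Γ n ℓ} {𝒲 : Set (Element ρ)}
    (hind : Independent 𝒲) (hrich : ∀ e ∈ 𝒲, e.Rich) : ∃ B : ℕ, ∀ M : IntermediateField ℚ ℂ,
      FiniteDimensional ℚ M → ∃ (W : Witness ρ) (τ : AG W.L), τ ∈ W.T ∧ W.degree ≤ B ∧
        W.L ⊓ M ≤ ⊥ := by
  classical
  have hfg : ∀ e : Element ρ, FiniteDimensional ℚ e.field ∧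
      @IsGalois ℚ _ e.field _ (IntermediateField.algebra' e.field) := by
    intro e
    obtain ⟨Q, b, hb, hQ, hQ0, hfield⟩ := exists_SF e.P (ne_zero_of_char e.charpoly)
    have hfield' : e.field = SF (∏ i, Q i) := hfield
    rw [hfield']
    exact ⟨inferInstance, isGalois_trans _ _ (galSF _)⟩
  have i1 : ∀ j : 𝒲, FiniteDimensional ℚ j.1.field := fun j => (hfg j.1).1
  have i2 : ∀ j : 𝒲, @IsGalois ℚ _ j.1.field _ (IntermediateField.algebra' j.1.field) :=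
    fun j => (hfg j.1).2
  have hτ : ∀ (r : Option (Σ i, Fin (n i))) (j : 𝒲), ∃ τ : AG j.1.field,
      (r = none → τ = 1) ∧ ∀ x, r = some x → 0 < (x.2 : ℕ) → ∀ S : Finset j.1.field,
        StableIn τ (j.1.P x.1) S → S.card ≠ x.2 := by
    intro r j
    rcases r with _ | x
    · exact ⟨1, fun _ => rfl, fun x hx => by cases hx⟩
    · by_cases hx : 0 < (x.2 : ℕ)
      · obtain ⟨τ, h1⟩ := (hrich j.1 j.2).sum x.1 x.2 hx x.2.2
        refine ⟨τ, (fun h => by cases h), fun y hy _ => ?_⟩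
        cases hy
        exact h1
      · refine ⟨1, fun _ => rfl, fun y hy hy0 => ?_⟩
        cases hy
        exact absurd hy0 hx
  choose τ hτ1 hτ2 using hτ
  set s : Finset (Option (Σ i, Fin (n i))) := Finset.univ with hs
  refine ⟨((∑ i, n i).factorial) ^ s.card, fun M hM => ?_⟩
  obtain ⟨f, N, i3, i4, g, h1, h2, h3⟩ := exists_tuple (F := ℚ) (K := ℂ) (J := 𝒲)
    (R := Option (Σ i, Fin (n i))) (L := fun j => j.1.field) τ (B := (∑ i, n i).factorial)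
    (fun j => by
      have h4 := i1 j
      have h5 : FiniteDimensional ℚ
        (IntermediateField.adjoin ℚ {z : ℂ | ∃ i, aeval z (j.1.P i) = 0}) := h4
      have h6 := gsz_field_le j.1.P (ne_zero_of_char j.1.charpoly)
      rw [Finset.sum_congr rfl fun i _ => natDegree_P j.1 i] at h6
      exact h6)
    (fun M hM => by
      obtain ⟨e, he, h4⟩ := hind M hM
      exact ⟨⟨e, he⟩, h4⟩) M s
  refine ⟨⟨Option (Σ i, Fin (n i)), inferInstance, fun r => (f r).1, N, i3, i4, {g}, ?_, ?_, ?_⟩,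
    g, Finset.mem_singleton_self g, ?_, h2⟩
  · intro r i z hz
    exact (h3 r (Finset.mem_univ r)).1 (IntermediateField.subset_adjoin ℚ _ ⟨i, hz⟩)
  · intro τ' hτ' i d hd hdn
    rw [Finset.mem_singleton] at hτ'
    subst hτ'
    set r : Option (Σ i, Fin (n i)) := some ⟨i, ⟨d, hdn⟩⟩ with hr
    obtain ⟨hle, hres⟩ := h3 r (Finset.mem_univ r)
    refine ⟨r, (hrich _ (f r).2).neat i, fun S hS => ?_⟩
    have hmem : ∀ x ∈ S, (x : ℂ) ∈ (f r).1.field := fun x hx =>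
      IntermediateField.subset_adjoin ℚ _ ⟨i, hS.root x hx⟩
    let inc : (f r).1.field → N := fun y => ⟨y, hle y.2⟩
    have hinc : Function.Injective inc := fun x y hxy =>
      Subtype.ext (congrArg (fun u : N => (u : ℂ)) hxy)
    have h4 : StableIn (τ r (f r)) ((f r).1.P i) (S.preimage inc hinc.injOn) := by
      refine ⟨fun x hx => hS.root _ (Finset.mem_preimage.1 hx), fun x hx => ?_⟩
      rw [Finset.mem_preimage] at hx ⊢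
      have h5 : inc (τ r (f r) x) = τ' (inc x) := by
        apply Subtype.ext
        rw [hres (inc x) x.2]
      rw [h5]
      exact hS.stable _ hx
    have h5 := hτ2 r (f r) ⟨i, ⟨d, hdn⟩⟩ hr hd _ h4
    have h6 : (S.preimage inc hinc.injOn).card = S.card := by
      refine Finset.card_bij (fun x _ => inc x) (fun x hx => Finset.mem_preimage.1 hx)
        (fun x _ y _ h => hinc h) fun b hb => ?_
      exact ⟨⟨b, hmem b hb⟩, Finset.mem_preimage.2 hb, rfl⟩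
    rw [← h6]
    exact h5
  · intro τ' hτ' i hi p hp _
    rw [Finset.mem_singleton] at hτ'
    subst hτ'
    obtain ⟨hle, hres⟩ := h3 none (Finset.mem_univ none)
    refine ⟨none, (hrich _ (f none).2).neat i, ?_⟩
    obtain ⟨z, hz⟩ : ∃ z : ℂ, aeval z ((f none).1.P i) = 0 :=
      IsAlgClosed.exists_aeval_eq_zero ℂ _ (by
        rw [Polynomial.degree_eq_natDegree (ne_zero_of_char (f none).1.charpoly i), natDegree_P]
        exact_mod_cast hi.ne')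
    have hzf : z ∈ (f none).1.field := IntermediateField.subset_adjoin ℚ _ ⟨i, hz⟩
    refine ⟨{⟨z, hle hzf⟩}, ⟨fun x hx => ?_, fun x hx => ?_⟩, ?_⟩
    · rw [Finset.mem_singleton] at hx
      subst hx
      exact hz
    · rw [Finset.mem_singleton] at hx ⊢
      subst hx
      apply Subtype.ext
      rw [hres ⟨z, hle hzf⟩ hzf, hτ1 none (f none) rfl]
      rfl
    · rw [Finset.card_singleton]
      exact fun h => hp.one_lt.ne' (Nat.dvd_one.1 h)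
  · have h4 : Nat.card (AG N) = Module.finrank ℚ N :=
      @IsGalois.card_aut_eq_finrank ℚ _ N _ (IntermediateField.algebra' N) i3 i4
    change Module.finrank ℚ N ≤ _
    rw [← h4]
    exact h1

theorem density_rich (ρ : ∀ (ℓ : ℕ) [Fact ℓ.Prime], Reps Γ n ℓ)
    (hρ : ∀ (ℓ : ℕ) [Fact ℓ.Prime], Conts (ρ ℓ)) (𝔤 : ∀ (ℓ : ℕ) [Fact ℓ.Prime], EndSpace n ℓ)
    (h𝔤 : ∀ (ℓ : ℕ) [Fact ℓ.Prime], Motivic (ρ ℓ) (𝔤 ℓ)) (w : ι → ℤ)
    (hb : MaximalRank ρ 𝔤 ∨ Regular ρ 𝔤 w) (hd : Different ρ) {𝒲 : Set (Element ρ)} (hind : Independent 𝒲) (hrich : ∀ e ∈ 𝒲, e.Rich) :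
    LowerDensity (goodPrimes ρ 𝔤) 1 := by
  obtain ⟨bad, hbad⟩ := background_at hb hd
  obtain ⟨B, hB⟩ := exists_witness hind hrich
  let J := {M : IntermediateField ℚ ℂ // FiniteDimensional ℚ M}
  choose W τ hτ hWB hWM using fun M : J => hB M.1 M.2
  choose bad' hbad' using fun M : J => exists_bad (W M)
  refine (density_familyV (J := J) (L := fun M => (W M).L) τ (fun M => bad ∪ bad' M)
    (fun M => (W M).finiteDimensional) (fun M => (W M).galois) (B := B) hWB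
    (fun M hM => ⟨⟨M, hM⟩, hWM ⟨M, hM⟩⟩)).mono ?_
  rintro ℓ - ⟨hℓ, M, ht, hlift⟩
  have : Fact ℓ.Prime := ⟨hℓ⟩
  rw [Finset.mem_union, not_or] at ht
  obtain ⟨G, hG⟩ := orbits_of_lift (W M) (hτ M) (hbad' M ℓ ht.2) hlift
  exact ⟨⟨hℓ⟩, local_result (ρ ℓ) (hρ ℓ) (𝔤 ℓ) (h𝔤 ℓ) w (hbad ℓ ht.1).1 (hbad ℓ ht.1).2
    G hG⟩

end proofs

end Pool.Agent.H853.OS
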