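import Mathlib
import Pool.Graph.R_seed8.Y114.RM.Stm

/-!
# Orbits on eigenvalues: definitions
-/

set_option autoImplicit false

namespace Pool.Agent.H853.OS

open Module Polynomial Pool.Agent.Y114.RM

section fields

variable {K : Type*} [Field K]

/-- The polynomial is separable, and the powers (with the same positive exponent) of its roots are
different. -/
structure Neat (Ω : Type*) [Field Ω] [Algebra K Ω] (f : K[X]) : Prop where
  separable : f.Separable
  powers : ∀ a b : Ω, aeval a f = 0 → aeval b f = 0 → ∀ N : ℕ, 0 < N → a ^ N = b ^ N → a = b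

/-- `S` consists of roots of `f`, and it is stable under the group `G` of automorphisms. -/
structure StableRoots {Ω : Type*} [Field Ω] [Algebra K Ω] (G : Subgroup (Ω ≃ₐ[K] Ω)) (f : K[X])
    (S : Finset Ω) : Prop where
  root : ∀ x ∈ S, aeval x f = 0
  stable : ∀ σ ∈ G, ∀ x ∈ S, σ x ∈ S

end fields

section reps

variable {K : Type} [Field K] {Γ : Type} [Group Γ] {ι : Type} {n : ι → ℕ}
  (ρ : ∀ i, Representation K Γ (Fin (n i) → K)) {Ω : Type} [Field Ω] [Algebra K Ω]

/-- The conditions on the orbits of a group `G` of automorphisms of `Ω` on the sets of eigenvalues, for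
elements `γ` whose characteristic polynomial on the `i`-th summand is neat.  `sum`: for each
`0 < d < n i` there is such an element for which no union of orbits has `d` elements.  `divisor`: for
each prime divisor `p` of `n i` there is such an element and a union of orbits the order of which is
not divisible by `p`. -/
structure OrbitsFor (G : Subgroup (Ω ≃ₐ[K] Ω)) : Prop where
  sum : ∀ i d, 0 < d → d < n i → ∃ γ, Neat Ω (ρ i γ).charpoly ∧
    ∀ S, StableRoots G (ρ i γ).charpoly S → S.card ≠ d
  divisor : ∀ i, 0 < n i → ∀ p : ℕ, p.Prime → p ∣ n i → ∃ γ, Neat Ω (ρ i γ).charpoly ∧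
    ∃ S, StableRoots G (ρ i γ).charpoly S ∧ ¬ p ∣ S.card

variable (Ω)

/-- Any two summands are different: for `i ≠ j` there is an element with an eigenvalue on the `i`-th
summand no power of which is a power (with the same positive exponent) of an eigenvalue on the `j`-th
summand. -/
def DifferentFor : Prop :=
  ∀ i j, i ≠ j → ∃ γ, ∃ a : Ω, aeval a (ρ i γ).charpoly = 0 ∧
    ∀ b : Ω, aeval b (ρ j γ).charpoly = 0 → ∀ N : ℕ, 0 < N → a ^ N ≠ b ^ N

/-- Among the eigenvalues of `γ` on the summands there are `r` multiplicatively independent ones. -/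
def IndependentEigenvalues (γ : Γ) (r : ℕ) : Prop :=
  ∃ z : Fin r → Ω, (∀ j, ∃ i, aeval (z j) (LinearMap.charpoly (ρ i γ)) = 0) ∧
    ∀ e : Fin r → ℤ, ∏ j, z j ^ e j = 1 → e = 0

end reps

section lie

variable {k : Type} [Field k]

/-- The rank of `𝔤` is at most `r`: the centralizer in `𝔤` of some element of `𝔤` has at most the
dimension `r`. -/
def RankAtMostFor {V : Type} [AddCommGroup V] [Module k V] (𝔤 : Submodule k (End k V)) (r : ℕ) :
    Prop := ∃ X ∈ 𝔤, finrank k (cen 𝔤 X) ≤ r

/-- The elements of `𝔤` which act as scalars on all summands are the multiples of the weight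
operator, the multiplication by `w i` on the `i`-th summand. -/
def ScalarsWeights {ι : Type} {V : ι → Type} [∀ i, AddCommGroup (V i)]
    [∀ i, Module k (V i)] (𝔤 : Submodule k (End k (∀ i, V i))) (w : ι → ℤ) : Prop :=
  ∀ X ∈ 𝔤, ∀ c : ι → k, (∀ v i, X v i = c i • v i) → ∃ t : k, ∀ i, c i = t * w i

end lie

section rational

/-- Some root of `P` has no power in common with a root of `Q`. -/
def Separates (P Q : ℚ[X]) : Prop :=
  ∃ a : ℂ, aeval a P = 0 ∧ ∀ b : ℂ, aeval b Q = 0 → ∀ N : ℕ, 0 < N → a ^ N ≠ b ^ N

/-- The automorphisms of a subfield of `ℂ`. -/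
abbrev Aut (L : IntermediateField ℚ ℂ) : Type :=
  @AlgEquiv ℚ L L _ _ _ (IntermediateField.algebra' L) (IntermediateField.algebra' L)

/-- A set of roots of `P` in `L`, stable under `τ`. -/
structure StableIn {L : IntermediateField ℚ ℂ} (τ : L → L) (P : ℚ[X]) (S : Finset L) : Prop where
  root : ∀ x ∈ S, aeval (x : ℂ) P = 0
  stable : ∀ x ∈ S, τ x ∈ S

end rational

end Pool.Agent.H853.OS
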