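import Mathlib

/-!
# Orbits and equivariant maps
-/

set_option autoImplicit false

namespace Pool.Agent.H853.OS

open Finset

section comb

variable {G Ω : Type*} [Group G] [MulAction G Ω] [DecidableEq Ω]

/-- Stable under the group. -/
def StableSet (G : Type*) {Ω : Type*} [Group G] [MulAction G Ω] (S : Finset Ω) : Prop :=
  ∀ (g : G), ∀ x ∈ S, g • x ∈ S

theorem StableSet.mem_iff {S : Finset Ω} (h : StableSet G S) (g : G) {x : Ω} :
    g • x ∈ S ↔ x ∈ S := by
  refine ⟨fun hx => ?_, h g x⟩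
  have h1 := h g⁻¹ _ hx
  rwa [inv_smul_smul] at h1

/-- The fibres of an equivariant map on a stable set. -/
theorem card_fibre {S : Finset Ω} (hS : StableSet G S) {f : Ω → Ω}
    (hf : ∀ (g : G), ∀ x ∈ S, f (g • x) = g • f x) (g : G) (c : Ω) :
    (S.filter fun x => f x = g • c).card = (S.filter fun x => f x = c).card := by
  symm
  refine Finset.card_bij (fun x _ => g • x) ?_ ?_ ?_
  · intro x hx
    rw [mem_filter] at hx ⊢
    exact ⟨hS g x hx.1, by rw [hf g x hx.1, hx.2]⟩
  · intro x _ y _ h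
    exact MulAction.injective g h
  · intro y hy
    rw [mem_filter] at hy
    have h1 : g⁻¹ • y ∈ S := hS g⁻¹ y hy.1
    refine ⟨g⁻¹ • y, ?_, smul_inv_smul g y⟩
    rw [mem_filter]
    exact ⟨h1, by rw [hf g⁻¹ y hy.1, hy.2, inv_smul_smul]⟩

/-- If the values of an equivariant map on a stable set lie in a transitive set `O`, the order of
`O` divides the order of the stable set. -/
theorem card_dvd {S O : Finset Ω} (hS : StableSet G S) {f : Ω → Ω}
    (hf : ∀ (g : G), ∀ x ∈ S, f (g • x) = g • f x) (hO : ∀ x ∈ S, f x ∈ O) {c : Ω}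
    (hc : ∀ z ∈ O, ∃ g : G, g • c = z) : O.card ∣ S.card := by
  have h1 : S.card = ∑ z ∈ O, (S.filter fun x => f x = z).card :=
    Finset.card_eq_sum_card_fiberwise hO
  have h2 : ∀ z ∈ O, (S.filter fun x => f x = z).card = (S.filter fun x => f x = c).card := by
    intro z hz
    obtain ⟨g, rfl⟩ := hc z hz
    exact card_fibre hS hf g c
  rw [h1, Finset.sum_congr rfl h2, Finset.sum_const, smul_eq_mul]
  exact dvd_mul_right _ _

/-- **Main lemma.** -/
theorem const_of_orbits {I : Type*} {n : ℕ} (hn : 1 < n) {R : I → Finset Ω} {f : I → Ω → Ω}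
    (hR : ∀ s, (R s).card = n) (hst : ∀ s, StableSet G (R s))
    (hf : ∀ s (g : G), ∀ x ∈ R s, f s (g • x) = g • f s x) (M : Multiset Ω)
    (hM : ∀ s, (R s).val.map (f s) = M)
    (h1 : ∀ d, 0 < d → d < n → ∃ s, ∀ S ⊆ R s, StableSet G S → S.card ≠ d)
    (h2 : ∀ p : ℕ, p.Prime → p ∣ n → ∃ s, ∃ S ⊆ R s, StableSet G S ∧ ¬ p ∣ S.card) :
    ∃ c, ∀ s, ∀ x ∈ R s, f s x = c := by
  classical
  obtain ⟨s₀, -⟩ := h1 1 one_pos hn
  have hne : (R s₀).Nonempty := by
    rw [← Finset.card_pos, hR]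
    omega
  obtain ⟨x₀, hx₀⟩ := hne
  set c := f s₀ x₀ with hc
  have hmem : ∀ s z, z ∈ M ↔ ∃ x ∈ R s, f s x = z := by
    intro s z
    rw [← hM s, Multiset.mem_map]
    rfl
  set O : Finset Ω := M.toFinset.filter fun z => ∃ g : G, g • c = z with hO
  have hcO : c ∈ O := by
    rw [hO, mem_filter, Multiset.mem_toFinset]
    exact ⟨(hmem s₀ c).2 ⟨x₀, hx₀, rfl⟩, 1, one_smul _ _⟩
  -- the number of the elements over `O` does not depend on `s`
  have hcount : ∀ s, ((R s).filter fun x => f s x ∈ O).card = M.countP (· ∈ O) := by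
    intro s
    rw [← hM s, Multiset.countP_map, ← Finset.filter_val]
    rfl
  have hstO : ∀ s, StableSet G ((R s).filter fun x => f s x ∈ O) := by
    intro s g x hx
    rw [mem_filter] at hx ⊢
    refine ⟨hst s g x hx.1, ?_⟩
    rw [hO, mem_filter, Multiset.mem_toFinset] at hx ⊢
    obtain ⟨hx1, hx2, g', hg'⟩ := hx
    refine ⟨(hmem s _).2 ⟨g • x, hst s g x hx1, rfl⟩, g * g', ?_⟩
    rw [hf s g x hx1, mul_smul, hg']
  have hall : M.countP (· ∈ O) = n := by
    by_contra hne
    have h3 : 0 < M.countP (· ∈ O) := by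
      rw [← hcount s₀, Finset.card_pos]
      exact ⟨x₀, mem_filter.2 ⟨hx₀, hcO⟩⟩
    have h4 : M.countP (· ∈ O) ≤ n := by
      rw [← hcount s₀, ← hR s₀]
      exact card_le_card (filter_subset _ _)
    obtain ⟨s, hs⟩ := h1 _ h3 (lt_of_le_of_ne h4 hne)
    exact hs _ (filter_subset _ _) (hstO s) (hcount s)
  have hallO : ∀ s, ∀ x ∈ R s, f s x ∈ O := by
    intro s x hx
    have h3 : (R s).filter (fun x => f s x ∈ O) = R s := by
      refine Finset.eq_of_subset_of_card_le (filter_subset _ _) ?_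
      rw [hcount s, hall, hR]
    rw [← h3, mem_filter] at hx
    exact hx.2
  have htr : ∀ z ∈ O, ∃ g : G, g • c = z := fun z hz => (mem_filter.1 hz).2
  have hdvd : ∀ s, ∀ S ⊆ R s, StableSet G S → O.card ∣ S.card := fun s S hS hSst =>
    card_dvd hSst (fun g x hx => hf s g x (hS hx)) (fun x hx => hallO s x (hS hx)) htr
  have hO1 : O.card = 1 := by
    by_contra hne
    obtain ⟨p, hp, hpO⟩ := Nat.exists_prime_and_dvd hne
    have h3 : p ∣ n := by
      rw [← hR s₀]
      exact hpO.trans (hdvd s₀ _ (subset_refl _) (hst s₀))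
    obtain ⟨s, S, hS, hSst, hpS⟩ := h2 p hp h3
    exact hpS (hpO.trans (hdvd s S hS hSst))
  obtain ⟨c', hc'⟩ := Finset.card_eq_one.1 hO1
  refine ⟨c', fun s x hx => ?_⟩
  have h3 := hallO s x hx
  rw [hc', mem_singleton] at h3
  exact h3

end comb

end Pool.Agent.H853.OS
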