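import Pool.Agent.H853.OS.Defs

/-!
# Endomorphisms of `K ^ n` and of `Ω ^ n`
-/

set_option autoImplicit false

namespace Pool.Agent.H853.OS

open Module Polynomial

section ex

variable {K Ω : Type*} [Field K] [Field Ω] [Algebra K Ω] {n : ℕ}

variable (Ω) in
/-- The extension of an endomorphism of `K ^ n` to `Ω ^ n`. -/
noncomputable def ex : End K (Fin n → K) →ₐ[K] End Ω (Fin n → Ω) :=
  ((Matrix.toLinAlgEquiv' : Matrix (Fin n) (Fin n) Ω ≃ₐ[Ω] _).toAlgHom.restrictScalars K).comp
    (((Algebra.ofId K Ω).mapMatrix).comp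
      (LinearMap.toMatrixAlgEquiv' : End K (Fin n → K) ≃ₐ[K] _).toAlgHom)

theorem ex_eq (T : End K (Fin n → K)) :
    ex Ω T = Matrix.toLin' ((LinearMap.toMatrix' T).map (algebraMap K Ω)) := rfl

theorem ex_apply (T : End K (Fin n → K)) (v : Fin n → Ω) (i : Fin n) :
    ex Ω T v i = ∑ j, algebraMap K Ω (LinearMap.toMatrix' T i j) * v j := by
  rw [ex_eq, Matrix.toLin'_apply]
  rfl

theorem ex_inj {S T : End K (Fin n → K)} (h : ex Ω S = ex Ω T) : S = T := by
  rw [ex_eq, ex_eq] at h
  have h1 := Matrix.toLin'.injective h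
  have h2 := Matrix.map_injective (algebraMap K Ω).injective h1
  exact LinearMap.toMatrix'.injective h2

theorem charpoly_ex (T : End K (Fin n → K)) :
    (ex Ω T).charpoly = T.charpoly.map (algebraMap K Ω) := by
  rw [ex_eq, Matrix.charpoly_toLin']
  rw [Matrix.charpoly_map]
  congr 1
  exact LinearMap.charpoly_toMatrix T (Pi.basisFun K (Fin n))

theorem ex_aeval (T : End K (Fin n → K)) (f : K[X]) :
    ex Ω (aeval T f) = aeval (ex Ω T) (f.map (algebraMap K Ω)) := by
  rw [aeval_map_algebraMap, Polynomial.aeval_algHom_apply]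

theorem ex_conj (T : End K (Fin n → K)) (σ : Ω ≃ₐ[K] Ω) (v : Fin n → Ω) :
    ex Ω T (fun i => σ (v i)) = fun i => σ (ex Ω T v i) := by
  funext i
  rw [ex_apply, ex_apply, map_sum]
  refine Finset.sum_congr rfl fun j _ => ?_
  rw [map_mul, AlgEquiv.commutes]

/-- The roots of `f` in `Ω`. -/
noncomputable def rts (Ω : Type*) [Field Ω] [Algebra K Ω] [DecidableEq Ω] (f : K[X]) : Finset Ω :=
  (f.aroots Ω).toFinset

theorem mem_rts [DecidableEq Ω] {f : K[X]} (hf : f ≠ 0) {x : Ω} : x ∈ rts Ω f ↔ aeval x f = 0 := by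
  rw [rts, Multiset.mem_toFinset, mem_aroots]
  exact and_iff_right hf

theorem rts_val [DecidableEq Ω] {f : K[X]} (hf : f.Separable) : (rts Ω f).val = f.aroots Ω := by
  rw [rts, Multiset.toFinset_val, Multiset.dedup_eq_self]
  exact nodup_roots hf.map

theorem card_rts [DecidableEq Ω] [IsAlgClosed Ω] {f : K[X]} (hf : f.Separable) :
    (rts Ω f).card = f.natDegree := by
  rw [← Finset.card_val, rts_val hf]
  exact IsAlgClosed.card_roots_map_eq_natDegree_from_simpleRing _ f

end ex

end Pool.Agent.H853.OS
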