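import Pool.Agent.H853.OS.Nt
import Pool.Agent.H853.OS.Comb

/-!
# Irreducibility and endomorphisms, from stable sets of eigenvalues
-/

set_option autoImplicit false
set_option linter.unusedSectionVars false

namespace Pool.Agent.H853.OS

open Module Polynomial

theorem aeval_intertwine {K V V' : Type*} [Field K] [AddCommGroup V] [Module K V]
    [AddCommGroup V'] [Module K V'] (φ : V →ₗ[K] V') {f : End K V} {f' : End K V'}
    (h : ∀ v, φ (f v) = f' (φ v)) (p : K[X]) (v : V) :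
    φ (aeval f p v) = aeval f' p (φ v) := by
  induction p using Polynomial.induction_on' with
  | add p q hp hq => rw [map_add, map_add, LinearMap.add_apply, LinearMap.add_apply, map_add, hp, hq]
  | monomial k a =>
    have h1 : ∀ k : ℕ, φ ((f ^ k) v) = (f' ^ k) (φ v) := by
      intro k
      induction k with
      | zero => rfl
      | succ k ih =>
        rw [pow_succ', pow_succ', Module.End.mul_apply, Module.End.mul_apply, h, ih]
    rw [aeval_monomial, aeval_monomial, Module.End.mul_apply, Module.End.mul_apply,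
      Module.algebraMap_end_apply, Module.algebraMap_end_apply, map_smul, h1]

section stable

variable {K Ω : Type*} [Field K] [Field Ω] [Algebra K Ω]

variable [IsAlgClosed Ω] [DecidableEq Ω] {n : ℕ} {T : End K (Fin n → K)}

theorem aeval_ex_apply {A : End K (Fin n → K)} {p : K[X]} {μ : Ω} {w : Fin n → Ω}
    (hw : ex Ω A w = μ • w) : ex Ω (aeval A p) w = aeval μ p • w := by
  by_cases h0 : w = 0
  · rw [h0, map_zero, smul_zero]
  · rw [ex_aeval, Module.End.aeval_apply_of_hasEigenvector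
      (Module.End.hasEigenvector_iff.2 ⟨Module.End.mem_eigenspace_iff.2 hw, h0⟩),
      eval_map_algebraMap]

/-- A stable subspace gives a stable set of roots. -/
theorem exists_stable (hT : Neat Ω T.charpoly) {N : ℕ} (hN : 0 < N)
    {U : Submodule K (Fin n → K)} (hU : ∀ u ∈ U, (T ^ N) u ∈ U) :
    ∃ S : Finset Ω, S.card = finrank K U ∧ ∀ G, StableRoots G T.charpoly S := by
  classical
  set A := T ^ N with hA
  set gU := (A.restrict hU).charpoly with hgU
  set gQ := (U.mapQ U A hU).charpoly with hgQ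
  have h1 : aeval A (gU * gQ) = 0 := by
    refine LinearMap.ext fun v => ?_
    rw [map_mul, Module.End.mul_apply, LinearMap.zero_apply]
    have h2 : aeval A gQ v ∈ U := by
      rw [← Submodule.Quotient.mk_eq_zero, ← Submodule.mkQ_apply]
      rw [aeval_intertwine U.mkQ (f' := U.mapQ U A hU) (fun v => rfl), hgQ,
        LinearMap.aeval_self_charpoly, LinearMap.zero_apply]
    have h3 := aeval_intertwine U.subtype (f := A.restrict hU) (f' := A) (fun v => rfl) gU
      ⟨_, h2⟩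
    rw [Submodule.subtype_apply] at h3
    refine h3.symm.trans ?_
    rw [hgU, LinearMap.aeval_self_charpoly, LinearMap.zero_apply]
    rfl
  have hgU0 : gU ≠ 0 := (A.restrict hU).charpoly_monic.ne_zero
  have hgQ0 : gQ ≠ 0 := (U.mapQ U A hU).charpoly_monic.ne_zero
  obtain ⟨b, hb⟩ := exists_basis (Ω := Ω) hT.separable
  have hroot : ∀ x ∈ rts Ω T.charpoly, aeval x T.charpoly = 0 := fun x hx =>
    (mem_rts T.charpoly_monic.ne_zero).1 hx
  have h2 : ∀ x ∈ rts Ω T.charpoly, aeval (x ^ N) gU = 0 ∨ aeval (x ^ N) gQ = 0 := by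
    intro x hx
    have h3 : ex Ω A (b ⟨x, hx⟩) = x ^ N • b ⟨x, hx⟩ := by
      rw [hA, map_pow]
      exact pow_apply_eigen (hb ⟨x, hx⟩) N
    have h4 := aeval_ex_apply (p := gU * gQ) h3
    rw [h1, map_zero, LinearMap.zero_apply, map_mul] at h4
    rcases smul_eq_zero.1 h4.symm with h5 | h5
    · exact mul_eq_zero.1 h5
    · exact absurd h5 (b.ne_zero _)
  have hcard : ∀ g : K[X], g ≠ 0 →
      ((rts Ω T.charpoly).filter fun x => aeval (x ^ N) g = 0).card ≤ g.natDegree := by
    intro g hg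
    have h3 : ((rts Ω T.charpoly).filter fun x => aeval (x ^ N) g = 0).card ≤
        (rts Ω g).card := by
      refine Finset.card_le_card_of_injOn (fun x => x ^ N) ?_ ?_
      · intro x hx
        rw [Finset.mem_coe, Finset.mem_filter] at hx
        exact (mem_rts hg).2 hx.2
      · intro x hx y hy hxy
        rw [Finset.mem_coe, Finset.mem_filter] at hx hy
        exact hT.powers x y (hroot x hx.1) (hroot y hy.1) N hN hxy
    refine h3.trans ?_
    rw [rts]
    refine (Multiset.toFinset_card_le _).trans ((card_roots' _).trans ?_)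
    rw [natDegree_map]
  refine ⟨(rts Ω T.charpoly).filter fun x => aeval (x ^ N) gU = 0, ?_, fun G => ⟨?_, ?_⟩⟩
  · have h3 := hcard gU hgU0
    have h4 := hcard gQ hgQ0
    have h5 : (rts Ω T.charpoly).card ≤
        ((rts Ω T.charpoly).filter fun x => aeval (x ^ N) gU = 0).card +
        ((rts Ω T.charpoly).filter fun x => aeval (x ^ N) gQ = 0).card := by
      refine (Finset.card_le_card ?_).trans (Finset.card_union_le _ _)
      intro x hx
      rw [Finset.mem_union, Finset.mem_filter, Finset.mem_filter]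
      exact (h2 x hx).imp (fun h => ⟨hx, h⟩) fun h => ⟨hx, h⟩
    have h6 : gU.natDegree = finrank K U := LinearMap.charpoly_natDegree _
    have h7 : gQ.natDegree = finrank K ((Fin n → K) ⧸ U) := LinearMap.charpoly_natDegree _
    have h8 := Submodule.finrank_quotient_add_finrank U
    rw [Module.finrank_fin_fun] at h8
    rw [card_rts_charpoly hT.separable] at h5
    omega
  · intro x hx
    exact hroot x (Finset.mem_filter.1 hx).1
  · intro σ _ x hx
    rw [Finset.mem_filter] at hx ⊢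
    refine ⟨?_, ?_⟩
    · rw [mem_rts T.charpoly_monic.ne_zero, aeval_algHom_apply, hroot x hx.1, map_zero]
    · rw [← map_pow, aeval_algHom_apply, hx.2, map_zero]

theorem scalar_of_ex {P : End K (Fin n → K)} {c : Ω} (h : ex Ω P = c • 1) :
    ∃ a : K, P = a • 1 := by
  rcases Nat.eq_zero_or_pos n with hn | hn
  · subst hn
    exact ⟨0, Subsingleton.elim _ _⟩
  · let i : Fin n := ⟨0, hn⟩
    refine ⟨LinearMap.toMatrix' P i i, ex_inj (Ω := Ω) ?_⟩
    have h1 := congrFun (LinearMap.congr_fun h (Pi.single i 1)) i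
    rw [ex_apply, Finset.sum_eq_single i, Pi.single_eq_same, mul_one] at h1
    · rw [LinearMap.smul_apply, Module.End.one_apply, Pi.smul_apply, Pi.single_eq_same, smul_eq_mul,
        mul_one] at h1
      rw [h, map_smul, map_one, ← h1, algebraMap_smul]
    · intro j _ hj
      rw [Pi.single_eq_of_ne hj, mul_zero]
    · intro h2
      exact absurd (Finset.mem_univ _) h2

end stable

section rep

variable {K Ω : Type*} [Field K] [Field Ω] [Algebra K Ω] [IsAlgClosed Ω] {n : ℕ}
  {Γ : Type*} [Group Γ] (ρ : Representation K Γ (Fin n → K)) (G : Subgroup (Ω ≃ₐ[K] Ω))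

/-- Irreducible for the subgroup `Δ`. -/
def IrrFor {V : Type*} [AddCommGroup V] [Module K V] (ρ : Representation K Γ V)
    (Δ : Subgroup Γ) : Prop :=
  ∀ U : Submodule K V, (∀ s ∈ Δ, ∀ u ∈ U, ρ s u ∈ U) → U = ⊥ ∨ U = ⊤

/-- No common partial sums of the numbers of elements in the orbits. -/
def NoCommonSum : Prop := ∀ d, 0 < d → d < n → ∃ γ, Neat Ω (ρ γ).charpoly ∧
  ∀ S, StableRoots G (ρ γ).charpoly S → S.card ≠ d

/-- No common divisor of the numbers of elements in the orbits. -/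
def NoCommonDivisor : Prop := 0 < n → ∀ p : ℕ, p.Prime → p ∣ n → ∃ γ, Neat Ω (ρ γ).charpoly ∧
  ∃ S, StableRoots G (ρ γ).charpoly S ∧ ¬ p ∣ S.card

variable {ρ G}

theorem exists_pow (Δ : Subgroup Γ) (hΔ : Δ.FiniteIndex) (γ : Γ) :
    ∃ N : ℕ, 0 < N ∧ γ ^ N ∈ Δ := by
  obtain ⟨N, hN, -, h⟩ := Subgroup.exists_pow_mem_of_index_ne_zero hΔ.index_ne_zero γ
  exact ⟨N, hN, h⟩

theorem irr_of_sum (h : NoCommonSum ρ G) {Δ : Subgroup Γ} (hΔ : Δ.FiniteIndex) :
    IrrFor ρ Δ := by
  classical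
  intro U hU
  by_cases h0 : finrank K U = 0
  · exact Or.inl (Submodule.finrank_eq_zero.1 h0)
  by_cases h1 : finrank K U = n
  · refine Or.inr (Submodule.eq_top_of_finrank_eq ?_)
    rw [h1, Module.finrank_fin_fun]
  exfalso
  have h2 : finrank K U ≤ n := by
    have := Submodule.finrank_le U
    rwa [Module.finrank_fin_fun] at this
  obtain ⟨γ, hγ, hS⟩ := h _ (Nat.pos_of_ne_zero h0) (lt_of_le_of_ne h2 h1)
  obtain ⟨N, hN, hγN⟩ := exists_pow Δ hΔ γ
  obtain ⟨S, hS1, hS2⟩ := exists_stable hγ hN (U := U) (fun u hu => by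
    rw [← map_pow]
    exact hU _ hγN u hu)
  exact hS S (hS2 G) hS1

theorem scalar_of_comm (h1 : NoCommonSum ρ G) (h2 : NoCommonDivisor ρ G) {Δ : Subgroup Γ}
    (hΔ : Δ.FiniteIndex) {P : End K (Fin n → K)} (hP : ∀ s ∈ Δ, P * ρ s = ρ s * P) :
    ∃ a : K, P = a • 1 := by
  classical
  by_cases hn : 1 < n
  · let I := {γ : Γ // Neat Ω (ρ γ).charpoly}
    have h3 : ∀ s : I, ∃ lam : Ω → Ω,
        (∀ x, aeval x (ρ s.1).charpoly = 0 → ∀ w, ex Ω (ρ s.1) w = x • w → ex Ω P w = lam x • w) ∧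
        (rts Ω (ρ s.1).charpoly).val.map lam = P.charpoly.aroots Ω ∧
        ∀ σ : Ω ≃ₐ[K] Ω, ∀ x, aeval x (ρ s.1).charpoly = 0 → lam (σ x) = σ (lam x) := by
      intro s
      obtain ⟨N, hN, hγN⟩ := exists_pow Δ hΔ s.1
      refine exists_lam s.2 hN ?_
      rw [← map_pow]
      exact hP _ hγN
    choose lam hl1 hl2 hl3 using h3
    have hroot : ∀ s : I, ∀ x ∈ rts Ω (ρ s.1).charpoly, aeval x (ρ s.1).charpoly = 0 :=
      fun s x hx => (mem_rts (ρ s.1).charpoly_monic.ne_zero).1 hx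
    have key : ∀ (s : I) (S : Finset Ω), StableRoots G (ρ s.1).charpoly S →
        S ⊆ rts Ω (ρ s.1).charpoly ∧ StableSet G S := by
      intro s S hS
      exact ⟨fun x hx => (mem_rts (ρ s.1).charpoly_monic.ne_zero).2 (hS.root x hx),
        fun g x hx => hS.stable g.1 g.2 x hx⟩
    have key2 : ∀ (s : I) (S : Finset Ω), S ⊆ rts Ω (ρ s.1).charpoly → StableSet G S →
        StableRoots G (ρ s.1).charpoly S := by
      intro s S hS hst
      exact ⟨fun x hx => hroot s x (hS hx), fun σ hσ x hx => hst ⟨σ, hσ⟩ x hx⟩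
    obtain ⟨c, hc⟩ := const_of_orbits (G := G) (I := I) hn
      (R := fun s => rts Ω (ρ s.1).charpoly) (f := lam)
      (fun s => card_rts_charpoly s.2.separable)
      (fun s g x hx => (mem_rts (ρ s.1).charpoly_monic.ne_zero).2 (by
        have h5 : g • x = (g : Ω ≃ₐ[K] Ω) x := rfl
        rw [h5, aeval_algHom_apply, hroot s x hx, map_zero]))
      (fun s g x hx => hl3 s g x (hroot s x hx)) (P.charpoly.aroots Ω) hl2
      (fun d hd hdn => by
        obtain ⟨γ, hγ, hS⟩ := h1 d hd hdn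
        exact ⟨⟨γ, hγ⟩, fun S hS1 hS2 => hS S (key2 ⟨γ, hγ⟩ S hS1 hS2)⟩)
      (fun p hp hpn => by
        obtain ⟨γ, hγ, S, hS, hpS⟩ := h2 (by omega) p hp hpn
        exact ⟨⟨γ, hγ⟩, S, (key ⟨γ, hγ⟩ S hS).1, (key ⟨γ, hγ⟩ S hS).2, hpS⟩)
    obtain ⟨γ, hγ, -⟩ := h1 1 one_pos hn
    obtain ⟨b, hb⟩ := exists_basis (Ω := Ω) hγ.separable
    refine scalar_of_ex (c := c) (b.ext fun x => ?_)
    rw [hl1 ⟨γ, hγ⟩ x (hroot ⟨γ, hγ⟩ x x.2) _ (hb x), hc ⟨γ, hγ⟩ x x.2]
    rfl
  · have h3 : n = 0 ∨ n = 1 := by omega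
    rcases h3 with rfl | rfl
    · exact ⟨0, Subsingleton.elim _ _⟩
    · refine ⟨LinearMap.toMatrix' P 0 0, LinearMap.toMatrix'.injective ?_⟩
      ext i j
      rw [Subsingleton.elim i 0, Subsingleton.elim j 0, map_smul, LinearMap.toMatrix'_one]
      simp

theorem hom_zero {m : ℕ} {ρ' : Representation K Γ (Fin m → K)} {Δ : Subgroup Γ}
    (hΔ : Δ.FiniteIndex) (hirr : IrrFor ρ Δ)
    (h3 : ∃ γ, ∃ a : Ω, aeval a (ρ γ).charpoly = 0 ∧ ∀ b : Ω, aeval b (ρ' γ).charpoly = 0 →
      ∀ N : ℕ, 0 < N → a ^ N ≠ b ^ N)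
    {f : (Fin n → K) →ₗ[K] (Fin m → K)} (hf : ∀ s ∈ Δ, ∀ v, f (ρ s v) = ρ' s (f v)) :
    f = 0 := by
  classical
  by_contra hne
  have hker : LinearMap.ker f = ⊥ := by
    rcases hirr (LinearMap.ker f) (fun s hs u hu => by
      rw [LinearMap.mem_ker] at hu ⊢
      rw [hf s hs, hu, map_zero]) with h | h
    · exact h
    · exact absurd (LinearMap.ker_eq_top.1 h) hne
  have hinj := LinearMap.ker_eq_bot.1 hker
  obtain ⟨γ, a, ha, hab⟩ := h3
  obtain ⟨N, hN, hγN⟩ := exists_pow Δ hΔ γ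
  have hfN : ∀ v, f (((ρ γ) ^ N) v) = ((ρ' γ) ^ N) (f v) := by
    intro v
    rw [← map_pow, ← map_pow]
    exact hf _ hγN v
  set g := ((ρ' γ) ^ N).charpoly with hg
  have h4 : aeval ((ρ γ) ^ N) g = 0 := by
    refine LinearMap.ext fun v => hinj ?_
    rw [aeval_intertwine f hfN, hg, LinearMap.aeval_self_charpoly, LinearMap.zero_apply,
      LinearMap.zero_apply, map_zero]
  obtain ⟨w, hw⟩ := (aeval_charpoly.1 ha).exists_hasEigenvector
  have h5 : ex Ω ((ρ γ) ^ N) w = a ^ N • w := by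
    rw [map_pow]
    exact pow_apply_eigen hw.apply_eq_smul N
  have h6 := aeval_ex_apply (p := g) h5
  rw [h4, map_zero, LinearMap.zero_apply] at h6
  have h7 : aeval (a ^ N) g = 0 := (smul_eq_zero.1 h6.symm).resolve_right hw.2
  rw [hg, aeval_charpoly, Module.End.hasEigenvalue_iff_mem_spectrum, map_pow,
    spectrum.map_pow_of_pos _ hN] at h7
  obtain ⟨b, hb, hbN⟩ := h7
  rw [← Module.End.hasEigenvalue_iff_mem_spectrum, ← aeval_charpoly] at hb
  exact hab b hb N hN hbN.symm

end rep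

end Pool.Agent.H853.OS
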