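import Pool.Agent.H853.OS.Sum
import Pool.Agent.H853.SR.Fin
import Pool.Agent.H853.CC.Full

/-!
# The Mumford-Tate conjecture from orbits on Frobenius eigenvalues: one prime
-/

set_option autoImplicit false
set_option linter.unusedSectionVars false

namespace Pool.Agent.H853.OS

open Module Polynomial TensorProduct Pool.Agent.TH118.SG Pool.Agent.Y114.RM Pool.Agent.Y86.RM
  Pool.Agent.Y914.RM Pool.Agent.Y212.RM Pool.Agent.NH34.BD Pool.Agent.Y114.MU Pool.Agent.Y114.TF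
  Pool.Agent.Y114.GF Pool.Agent.H204R3.GP Pool.Agent.H853.SR Pool.Agent.H853.CC

section weight

variable {k : Type} [Field k] [CharZero k] [Algebra k ℂ] {ι : Type} [Fintype ι] [DecidableEq ι]
  {V : ι → Type} [∀ i, AddCommGroup (V i)] [∀ i, Module k (V i)] [∀ i, FiniteDimensional k (V i)]
  {Γ : Type} [Group Γ] (ρ : ∀ i, Representation k Γ (V i))

/-- The projection to a summand. -/
noncomputable def prj (k : Type) [Field k] {ι : Type} [DecidableEq ι]
    {V : ι → Type} [∀ i, AddCommGroup (V i)] [∀ i, Module k (V i)] (i : ι) :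
    End k (∀ i, V i) := LinearMap.single k V i ∘ₗ LinearMap.proj i

theorem scal_eq_sum (c : ι → k) : (scal c : End k (∀ i, V i)) = ∑ i, c i • prj k i := by
  refine LinearMap.ext fun v => ?_
  rw [LinearMap.sum_apply]
  funext j
  rw [scal_apply, Finset.sum_apply, Finset.sum_eq_single j]
  · rw [LinearMap.smul_apply, Pi.smul_apply]
    congr 1
    exact (Pi.single_eq_same j (v j)).symm
  · intro i _ hij
    rw [LinearMap.smul_apply, Pi.smul_apply]
    have h1 : (prj k i : End k (∀ i, V i)) v j = 0 := Pi.single_eq_of_ne (Ne.symm hij) (v i)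
    rw [h1, smul_zero]
  · intro h
    exact absurd (Finset.mem_univ _) h

theorem sum_prj : ∑ i, (prj k i : End k (∀ i, V i)) = 1 := by
  have h1 := scal_eq_sum (k := k) (V := V) (fun _ => 1)
  have h2 : (scal (fun _ => (1 : k)) : End k (∀ i, V i)) = 1 := by
    refine LinearMap.ext fun v => funext fun j => ?_
    rw [scal_apply, one_smul]
    rfl
  rw [← h2, h1]
  exact Finset.sum_congr rfl fun i _ => (one_smul _ _).symm

theorem prj_comm (γ : Γ) (i : ι) : prj k i * sumRep ρ γ = sumRep ρ γ * prj k i := by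
  refine LinearMap.ext fun v => ?_
  rw [Module.End.mul_apply, Module.End.mul_apply]
  have h1 : (prj k i : End k (∀ i, V i)) v = Pi.single i (v i) := rfl
  rw [h1, sumRep_single]
  rfl

theorem aeval_prj (γ : Γ) (i : ι) : aeval (sumRep ρ γ) (ρ i γ).charpoly * prj k i = 0 := by
  refine LinearMap.ext fun v => ?_
  rw [Module.End.mul_apply, LinearMap.zero_apply]
  have h1 : (prj k i : End k (∀ i, V i)) v = LinearMap.single k V i (v i) := rfl
  rw [h1, ← aeval_intertwine (LinearMap.single k V i) (f := ρ i γ)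
    (fun x => (sumRep_single ρ γ i x).symm), LinearMap.aeval_self_charpoly, LinearMap.zero_apply,
    map_zero]

theorem bc_aeval {W : Type} [AddCommGroup W] [Module k W] (g : End k W) (f : k[X]) :
    (aeval g f).baseChange ℂ = aeval (g.baseChange ℂ) (f.map (algebraMap k ℂ)) := by
  rw [aeval_map_algebraMap]
  induction f using Polynomial.induction_on' with
  | add p q hp hq => rw [map_add, LinearMap.baseChange_add, hp, hq, map_add]
  | monomial m a =>
    have h1 : ∀ m : ℕ, (g ^ m).baseChange ℂ = (g.baseChange ℂ) ^ m := by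
      intro m
      induction m with
      | zero => rw [pow_zero, pow_zero, bc_one]
      | succ m ih => rw [pow_succ, pow_succ, bc_mul, ih]
    rw [aeval_monomial, aeval_monomial, bc_mul, h1]
    congr 1
    rw [Module.algebraMap_end_eq_smul_id, LinearMap.baseChange_smul,
      Algebra.algebraMap_eq_smul_one]
    congr 1
    exact bc_one

/-- The weight operator is in the Lie algebra of the torus of a pure element. -/
theorem scal_tor (γ : Γ) {q : ℕ} (hq : 1 < q) (w : ι → ℤ)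
    (hpure : ∀ i, ∀ z : ℂ, aeval z (ρ i γ).charpoly = 0 → ‖z‖ ^ 2 = (q : ℝ) ^ w i) :
    (scal (fun i => (w i : k)) : End k (∀ i, V i)).baseChange ℂ ∈
      tor ((sumRep ρ γ).baseChange ℂ) := by
  refine ⟨(2 : ℂ) • lgq q, fun β x hx => ?_⟩
  set g := (sumRep ρ γ).baseChange ℂ with hg
  have h1 : (scal (fun i => (w i : k)) : End k (∀ i, V i)).baseChange ℂ =
      ∑ i, (w i : ℂ) • (prj k i : End k (∀ i, V i)).baseChange ℂ := by
    rw [scal_eq_sum]
    have h2 : ∀ (s : Finset ι), (∑ i ∈ s, (w i : k) • (prj k i : End k (∀ i, V i))).baseChange ℂ =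
        ∑ i ∈ s, (w i : ℂ) • (prj k i : End k (∀ i, V i)).baseChange ℂ := by
      intro s
      induction s using Finset.induction_on with
      | empty => rw [Finset.sum_empty, Finset.sum_empty, LinearMap.baseChange_zero]
      | insert i s hi ih =>
        rw [Finset.sum_insert hi, Finset.sum_insert hi, LinearMap.baseChange_add, ih,
          LinearMap.baseChange_smul]
        congr 1
        rw [← algebraMap_smul ℂ (w i : k), map_intCast]
    exact h2 _
  have h2 : x = ∑ i, (prj k i : End k (∀ i, V i)).baseChange ℂ x := by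
    have h3 : ∀ (s : Finset ι), (∑ i ∈ s, (prj k i : End k (∀ i, V i))).baseChange ℂ =
        ∑ i ∈ s, (prj k i : End k (∀ i, V i)).baseChange ℂ := by
      intro s
      induction s using Finset.induction_on with
      | empty => rw [Finset.sum_empty, Finset.sum_empty, LinearMap.baseChange_zero]
      | insert i s hi ih =>
        rw [Finset.sum_insert hi, Finset.sum_insert hi, LinearMap.baseChange_add, ih]
    rw [← LinearMap.sum_apply, ← h3, sum_prj, bc_one, Module.End.one_apply]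
  obtain ⟨m, hm⟩ := mem_gen.1 hx
  have key : ∀ i, (w i : ℂ) • (prj k i : End k (∀ i, V i)).baseChange ℂ x =
      ext0 ((2 : ℂ) • lgq q) β • (prj k i : End k (∀ i, V i)).baseChange ℂ x := by
    intro i
    set y := (prj k i : End k (∀ i, V i)).baseChange ℂ x with hy
    by_cases hy0 : y = 0
    · rw [hy0, smul_zero, smul_zero]
    have hc : Commute ((prj k i : End k (∀ i, V i)).baseChange ℂ) g := by
      rw [Commute, SemiconjBy, hg, ← bc_mul, ← bc_mul, prj_comm]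
    have hgy : ((g - algebraMap ℂ (End ℂ (ℂ ⊗[k] (∀ i, V i))) β) ^ m) y = 0 := by
      have hc2 : Commute ((prj k i : End k (∀ i, V i)).baseChange ℂ)
          ((g - algebraMap ℂ (End ℂ (ℂ ⊗[k] (∀ i, V i))) β) ^ m) :=
        (hc.sub_right (Algebra.commutes' β _).symm).pow_right m
      have h4 := LinearMap.congr_fun hc2.eq x
      rw [Module.End.mul_apply, Module.End.mul_apply, hm, map_zero] at h4
      exact h4.symm
    set F := (ρ i γ).charpoly.map (algebraMap k ℂ) with hF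
    have hFy : aeval g F y = 0 := by
      rw [hF, hg, ← bc_aeval, hy, ← Module.End.mul_apply, ← bc_mul, aeval_prj,
        LinearMap.baseChange_zero, LinearMap.zero_apply]
    have hroot : F.eval β = 0 := by
      by_contra hne
      apply hy0
      have h4 : IsCoprime (X - C β) F := by
        rw [(irreducible_X_sub_C β).coprime_iff_not_dvd, dvd_iff_isRoot]
        exact hne
      obtain ⟨u, v, huv⟩ := h4.pow_left (m := m)
      have h5 := LinearMap.congr_fun (congrArg (aeval g) huv) y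
      rw [map_add, map_mul, map_mul, map_one, LinearMap.add_apply, Module.End.mul_apply,
        Module.End.mul_apply, hFy, map_zero, add_zero, map_pow, map_sub, aeval_X, aeval_C, hgy,
        map_zero, Module.End.one_apply] at h5
      exact h5.symm
    have hz : aeval β (ρ i γ).charpoly = 0 := by
      rw [← eval_map_algebraMap]
      exact hroot
    have hn := hpure i β hz
    have hq0 : (0 : ℝ) < q := by
      have : 0 < q := by omega
      exact_mod_cast this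
    have hβ : β ≠ 0 := by
      rintro rfl
      rw [norm_zero, zero_pow two_ne_zero] at hn
      exact absurd hn.symm (zpow_pos hq0 _).ne'
    have h4 : ext0 ((2 : ℂ) • lgq q) β = (w i : ℂ) := by
      rw [Pool.Agent.Y114.RM.ext0_smul, ext0_lgq hβ]
      have hlog : Real.log q ≠ 0 := (Real.log_pos (by exact_mod_cast hq)).ne'
      have h5 : 2 * Real.log ‖β‖ = w i * Real.log q := by
        have h6 := congrArg Real.log hn
        rw [Real.log_pow, Real.log_zpow] at h6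
        exact_mod_cast h6
      have h7 : 2 * (Real.log ‖β‖ / Real.log q) = (w i : ℝ) := by
        rw [← mul_div_assoc, h5, mul_div_assoc, div_self hlog, mul_one]
      have h8 : ((2 * (Real.log ‖β‖ / Real.log q) : ℝ) : ℂ) = ((w i : ℝ) : ℂ) := by rw [h7]
      push_cast at h8
      push_cast
      exact h8
    rw [h4]
  rw [h1, LinearMap.sum_apply]
  conv_rhs => rw [h2, Finset.smul_sum]
  refine Finset.sum_congr rfl fun i _ => ?_
  rw [LinearMap.smul_apply]
  exact key i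

/-- The weight operator is in the monodromy Lie algebra. -/
theorem scal_mem (γ : Γ) {q : ℕ} (hq : 1 < q) (w : ι → ℤ)
    (hpure : ∀ i, ∀ z : ℂ, aeval z (ρ i γ).charpoly = 0 → ‖z‖ ^ 2 = (q : ℝ) ^ w i)
    {L : Submodule k (End k (∀ i, V i))} (hL : ∀ X, X ∈ L ↔ X ∈ LT (sumRep ρ)) :
    (scal (fun i => (w i : k)) : End k (∀ i, V i)) ∈ L := by
  have h1 := tor_le (sumRep ρ) inputs hL γ (scal_tor ρ γ hq w hpure)
  obtain ⟨π, hπ⟩ := exists_pi k ℂ
  have h2 := ((inputs.bc k ℂ (∀ i, V i) L).1 _).1 h1 π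
  rwa [pM_bc π hπ] at h2

end weight

section loc

variable {Γ : Type} [Group Γ] [TopologicalSpace Γ] [IsTopologicalGroup Γ] [CompactSpace Γ]
  {ι : Type} [Fintype ι] [DecidableEq ι] {n : ι → ℕ} {ℓ : ℕ} [Fact ℓ.Prime]

/-- Semisimplicity and the Tate endomorphisms, from the orbits. -/
theorem semisimple_of_orbits (ρ : Reps Γ n ℓ) {Ω : Type} [Field Ω] [Algebra ℚ_[ℓ] Ω]
    [IsAlgClosed Ω] (G : Subgroup (Ω ≃ₐ[ℚ_[ℓ]] Ω)) (h1 : ∀ i, NoCommonSum (ρ i) G) :
    Semisimple ρ := fun _ hΔ U hU => sum_semisimple ρ (fun i => irr_of_sum (h1 i) hΔ) U hU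

theorem endos_of_orbits (ρ : Reps Γ n ℓ) {Ω : Type} [Field Ω] [Algebra ℚ_[ℓ] Ω]
    [IsAlgClosed Ω] (G : Subgroup (Ω ≃ₐ[ℚ_[ℓ]] Ω)) (h1 : ∀ i, NoCommonSum (ρ i) G)
    (h2 : ∀ i, NoCommonDivisor (ρ i) G)
    (h3 : ∀ i j, i ≠ j → ∃ γ, ∃ a : Ω, aeval a (ρ i γ).charpoly = 0 ∧
      ∀ b : Ω, aeval b (ρ j γ).charpoly = 0 → ∀ N : ℕ, 0 < N → a ^ N ≠ b ^ N)
    {Δ : Subgroup Γ} (hΔ : Δ.FiniteIndex) {Y : End ℚ_[ℓ] (∀ i, Fin (n i) → ℚ_[ℓ])}
    (hY : ∀ s ∈ Δ, Y * sumRep ρ s = sumRep ρ s * Y) : ∃ c : ι → ℚ_[ℓ], Y = scal c := by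
  refine sum_commutant ρ (Δ := Δ) (fun i P hP => ?_) (fun i j hij f hf => ?_) hY
  · exact scalar_of_comm (h1 i) (h2 i) hΔ hP
  · exact hom_zero hΔ (irr_of_sum (h1 i) hΔ) (h3 i j hij) hf

/-- The scalars on the summands commute with `𝔤`. -/
theorem comm_scal {ρ : Reps Γ n ℓ} {𝔤 : Submodule ℚ_[ℓ] (End ℚ_[ℓ] (∀ i, Fin (n i) → ℚ_[ℓ]))}
    (h𝔤 : Motivic ρ 𝔤) {X : End ℚ_[ℓ] (∀ i, Fin (n i) → ℚ_[ℓ])} (hX : X ∈ 𝔤) (c : ι → ℚ_[ℓ]) :
    X * scal c = scal c * X := by
  refine LinearMap.ext fun v => funext fun i => ?_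
  rw [Module.End.mul_apply, Module.End.mul_apply, scal_apply, IsMotivic.parts h𝔤 X hX,
    IsMotivic.parts h𝔤 X hX v i, scal_apply, Pi.single_smul, map_smul, Pi.smul_apply]

/-- **The local theorem.** -/
theorem local_orbits [Algebra ℚ_[ℓ] ℂ] (ρ : Reps Γ n ℓ) (hρ : Conts ρ)
    (𝔤 : Submodule ℚ_[ℓ] (End ℚ_[ℓ] (∀ i, Fin (n i) → ℚ_[ℓ]))) (h𝔤 : Motivic ρ 𝔤) {Ω : Type} [Field Ω] [Algebra ℚ_[ℓ] Ω] [IsAlgClosed Ω]
    (G : Subgroup (Ω ≃ₐ[ℚ_[ℓ]] Ω)) (h1 : ∀ i, NoCommonSum (ρ i) G)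
    (h2 : ∀ i, NoCommonDivisor (ρ i) G)
    (h3 : ∀ i j, i ≠ j → ∃ γ, ∃ a : Ω, aeval a (ρ i γ).charpoly = 0 ∧
      ∀ b : Ω, aeval b (ρ j γ).charpoly = 0 → ∀ N : ℕ, 0 < N → a ^ N ≠ b ^ N)
    (γ₀ : Γ) (h4 : StronglyRegular (sumRep ρ) 𝔤 γ₀) (w : ι → ℤ) (h5 : ScalarsWeights 𝔤 w)
    (h6 : ∀ L : Submodule ℚ_[ℓ] (End ℚ_[ℓ] (∀ i, Fin (n i) → ℚ_[ℓ])),
      (∀ X, X ∈ L ↔ X ∈ LT (sumRep ρ)) → scal (fun i => (w i : ℚ_[ℓ])) ∈ L) :
    Semisimple ρ ∧ TateTensorsOf ρ 𝔤 := by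
  have hss : Semisimple ρ := semisimple_of_orbits ρ G h1
  refine ⟨hss, ?_⟩
  obtain ⟨L, hL, hLie, hAd, -⟩ :=
    inputs.lie ℚ_[ℓ] (∀ i, Fin (n i) → ℚ_[ℓ]) _ (sumRep ρ)
  have hLG : L ≤ 𝔤 := fun X hX =>
    IsMotivic.algebraic h𝔤 X fun m φ hφ => ((hL X).1 hX).2 m φ (IsMotivic.tate h𝔤 m φ hφ)
  have hmain := local_main (sumRep ρ) inputs inputs2 hss hL hLie hAd (IsMotivic.bracket h𝔤)
    (IsMotivic.algebraic h𝔤) hLG γ₀ h4
  obtain ⟨Δ', hΔ', hcomm⟩ := inputs2.tfr ℓ ι n _ ρ hρ (comm L) (comm_conj (sumRep ρ) hAd)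
    (comm_order (sumRep ρ) inputs inputs2 hL)
  have hscal : ∀ Y ∈ comm L, ∃ c : ι → ℚ_[ℓ], Y = scal c := fun Y hY =>
    endos_of_orbits ρ G h1 h2 h3 hΔ' fun s hs => (hcomm s hs Y hY).symm
  have hcen : ∀ X : End ℚ_[ℓ] (∀ i, Fin (n i) → ℚ_[ℓ]), X ∈ 𝔤 → X ∈ cenOf 𝔤 (comm L) := by
    intro X hX
    refine ⟨hX, fun Y hY => ?_⟩
    obtain ⟨c, rfl⟩ := hscal Y hY
    exact comm_scal h𝔤 hX c
  have hwL := h6 L hL
  have hGL : ∀ X : End ℚ_[ℓ] (∀ i, Fin (n i) → ℚ_[ℓ]), X ∈ 𝔤 → X ∈ L := by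
    intro X hX
    obtain ⟨x, hx, z, hz, rfl⟩ := hmain X (hcen X hX)
    have hz1 : z ∈ comm L := fun Y hY => (hz.2 Y (hcen Y (hLG hY))).symm
    obtain ⟨c, hc⟩ := hscal z hz1
    obtain ⟨t, ht⟩ := h5 z hz.1.1 c fun v i => by rw [hc, scal_apply]
    have h7 : z = t • scal (fun i => (w i : ℚ_[ℓ])) := by
      rw [hc]
      refine LinearMap.ext fun v => funext fun i => ?_
      rw [scal_apply, LinearMap.smul_apply, Pi.smul_apply, scal_apply, ht i, mul_smul]
    rw [h7]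
    exact L.add_mem hx (L.smul_mem _ hwL)
  intro m φ
  exact ⟨fun hφ X hX => ((hL X).1 (hGL X hX)).2 m φ hφ, IsMotivic.tate h𝔤 m φ⟩

end loc

end Pool.Agent.H853.OS
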