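import Pool.Agent.H853.OS.Ex

/-!
# Endomorphisms with neat characteristic polynomials
-/

set_option autoImplicit false
set_option linter.unusedSectionVars false

namespace Pool.Agent.H853.OS

open Module Polynomial

section nt

variable {K Ω : Type*} [Field K] [Field Ω] [Algebra K Ω] [IsAlgClosed Ω] [DecidableEq Ω] {n : ℕ}
  {T : End K (Fin n → K)}

theorem aeval_charpoly {x : Ω} :
    aeval x T.charpoly = 0 ↔ (ex Ω T).HasEigenvalue x := by
  rw [Module.End.hasEigenvalue_iff_isRoot_charpoly, charpoly_ex, IsRoot.def, eval_map_algebraMap]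

theorem natDegree_charpoly : T.charpoly.natDegree = n := by
  rw [LinearMap.charpoly_natDegree, Module.finrank_fin_fun]

theorem card_rts_charpoly (hs : T.charpoly.Separable) : (rts Ω T.charpoly).card = n := by
  rw [card_rts hs, natDegree_charpoly]

theorem mem_rts_charpoly {x : Ω} : x ∈ rts Ω T.charpoly ↔ (ex Ω T).HasEigenvalue x := by
  rw [mem_rts T.charpoly_monic.ne_zero, aeval_charpoly]

/-- A basis of eigenvectors. -/
theorem exists_basis (hs : T.charpoly.Separable) :
    ∃ b : Basis (rts Ω T.charpoly) Ω (Fin n → Ω), ∀ x, ex Ω T (b x) = (x : Ω) • b x := by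
  have h1 : ∀ x : rts Ω T.charpoly, ∃ v, (ex Ω T).HasEigenvector (x : Ω) v := fun x =>
    (mem_rts_charpoly.1 x.2).exists_hasEigenvector
  choose v hv using h1
  have h2 : LinearIndependent Ω v :=
    Module.End.eigenvectors_linearIndependent' (ex Ω T) (fun x : rts Ω T.charpoly => (x : Ω))
      Subtype.coe_injective v hv
  have h3 : Fintype.card (rts Ω T.charpoly) = finrank Ω (Fin n → Ω) := by
    rw [Fintype.card_coe, card_rts_charpoly hs, Module.finrank_fin_fun]
  by_cases hn : n = 0
  · subst hn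
    have h4 : IsEmpty (rts Ω T.charpoly) := by
      rw [← Fintype.card_eq_zero_iff, Fintype.card_coe, card_rts_charpoly hs]
    exact ⟨Basis.empty _, fun x => (h4.false x).elim⟩
  · have h4 : Nonempty (rts Ω T.charpoly) := by
      rw [← Fintype.card_pos_iff, Fintype.card_coe, card_rts_charpoly hs]
      exact Nat.pos_of_ne_zero hn
    refine ⟨basisOfLinearIndependentOfCardEqFinrank h2 h3, fun x => ?_⟩
    rw [coe_basisOfLinearIndependentOfCardEqFinrank]
    exact (hv x).apply_eq_smul

theorem pow_apply_eigen {S : End Ω (Fin n → Ω)} {x : Ω} {v : Fin n → Ω} (h : S v = x • v)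
    (N : ℕ) : (S ^ N) v = x ^ N • v := by
  induction N with
  | zero => rw [pow_zero, pow_zero, one_smul, Module.End.one_apply]
  | succ N ih =>
    rw [pow_succ, Module.End.mul_apply, h, map_smul, ih, smul_smul, pow_succ, mul_comm]

/-- The eigenvectors of the `N`-th power. -/
theorem eigen_of_pow (hT : Neat Ω T.charpoly) {N : ℕ} (hN : 0 < N)
    {b : Basis (rts Ω T.charpoly) Ω (Fin n → Ω)} (hb : ∀ x, ex Ω T (b x) = (x : Ω) • b x)
    {x : rts Ω T.charpoly} {w : Fin n → Ω} (hw : (ex Ω T ^ N) w = (x : Ω) ^ N • w) :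
    ∃ c : Ω, w = c • b x := by
  refine ⟨b.repr w x, ?_⟩
  have h0 : ∀ y : rts Ω T.charpoly, aeval (y : Ω) T.charpoly = 0 := fun y =>
    aeval_charpoly.2 (mem_rts_charpoly.1 y.2)
  have h1 : ∀ y, y ≠ x → b.repr w y = 0 := by
    intro y hy
    have h2 : b.repr ((ex Ω T ^ N) w) y = (y : Ω) ^ N * b.repr w y := by
      conv_lhs => rw [← b.sum_repr w]
      rw [map_sum, map_sum, Finsupp.finsetSum_apply, Finset.sum_eq_single y]
      · rw [map_smul, pow_apply_eigen (hb y), map_smul, map_smul, Basis.repr_self,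
          Finsupp.smul_apply, Finsupp.smul_apply, Finsupp.single_eq_same, smul_eq_mul, smul_eq_mul,
          mul_one, mul_comm]
      · intro z _ hz
        rw [map_smul, pow_apply_eigen (hb z), map_smul, map_smul, Basis.repr_self,
          Finsupp.smul_apply, Finsupp.smul_apply, Finsupp.single_eq_of_ne hz.symm, smul_zero,
          smul_zero]
      · intro h
        exact absurd (Finset.mem_univ _) h
    rw [hw, map_smul, Finsupp.smul_apply, smul_eq_mul] at h2
    have h3 : ((x : Ω) ^ N - (y : Ω) ^ N) * b.repr w y = 0 := by linear_combination h2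
    rcases mul_eq_zero.1 h3 with h4 | h4
    · exact absurd (Subtype.ext (hT.powers _ _ (h0 y) (h0 x) N hN (sub_eq_zero.1 h4).symm)) hy
    · exact h4
  conv_lhs => rw [← b.sum_repr w]
  rw [Finset.sum_eq_single x]
  · intro y _ hy
    rw [h1 y hy, zero_smul]
  · intro h
    exact absurd (Finset.mem_univ _) h

/-- The eigenvalues of an endomorphism which commutes with a power of `T`. -/
theorem exists_lam (hT : Neat Ω T.charpoly) {N : ℕ} (hN : 0 < N) {P : End K (Fin n → K)}
    (hP : P * T ^ N = T ^ N * P) : ∃ lam : Ω → Ω,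
      (∀ x, aeval x T.charpoly = 0 → ∀ w, ex Ω T w = x • w → ex Ω P w = lam x • w) ∧
      (rts Ω T.charpoly).val.map lam = P.charpoly.aroots Ω ∧
      ∀ σ : Ω ≃ₐ[K] Ω, ∀ x, aeval x T.charpoly = 0 → lam (σ x) = σ (lam x) := by
  obtain ⟨b, hb⟩ := exists_basis (Ω := Ω) hT.separable
  have hmem : ∀ {x : Ω}, aeval x T.charpoly = 0 ↔ x ∈ rts Ω T.charpoly := fun {x} =>
    (mem_rts T.charpoly_monic.ne_zero).symm
  have hC : ∀ w, ex Ω P ((ex Ω T ^ N) w) = (ex Ω T ^ N) (ex Ω P w) := by
    intro w
    have h1 := congrArg (ex Ω) hP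
    rw [map_mul, map_mul, map_pow] at h1
    exact LinearMap.congr_fun h1 w
  have h1 : ∀ x : rts Ω T.charpoly, ∃ c : Ω, ex Ω P (b x) = c • b x := by
    intro x
    refine eigen_of_pow hT hN hb ?_
    rw [← hC, pow_apply_eigen (hb x), map_smul]
  choose c hc using h1
  let lam : Ω → Ω := fun x => if h : x ∈ rts Ω T.charpoly then c ⟨x, h⟩ else 0
  have hlam : ∀ x : rts Ω T.charpoly, lam x = c x := fun x => dif_pos x.2
  have hmain : ∀ x, aeval x T.charpoly = 0 → ∀ w, ex Ω T w = x • w → ex Ω P w = lam x • w := by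
    intro x hx w hw
    obtain ⟨e, he⟩ := eigen_of_pow hT hN hb (x := ⟨x, hmem.1 hx⟩) (pow_apply_eigen hw N)
    rw [he, map_smul, hc, hlam ⟨x, hmem.1 hx⟩, smul_comm]
  refine ⟨lam, hmain, ?_, ?_⟩
  · have h2 : LinearMap.toMatrix b b (ex Ω P) = Matrix.diagonal c := by
      ext x y
      rw [LinearMap.toMatrix_apply, hc, map_smul, Basis.repr_self, Finsupp.smul_apply,
        Matrix.diagonal_apply, smul_eq_mul]
      by_cases hxy : x = y
      · rw [hxy, Finsupp.single_eq_same, mul_one, if_pos rfl]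
      · rw [Finsupp.single_eq_of_ne hxy, mul_zero, if_neg hxy]
    have h3 : (ex Ω P).charpoly = ∏ x, (X - C (c x)) := by
      rw [← LinearMap.charpoly_toMatrix _ b, h2, Matrix.charpoly_diagonal]
    have h5 : ∏ x, (X - C (c x)) =
        (((rts Ω T.charpoly).val.map lam).map fun a => X - C a).prod := by
      rw [Multiset.map_map]
      have h6 := Finset.prod_coe_sort (rts Ω T.charpoly) fun x => X - C (lam x)
      rw [← Finset.prod_congr rfl fun x _ => congrArg (fun a => X - C a) (hlam x)]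
      exact h6
    rw [aroots, ← charpoly_ex, h3, h5, roots_multiset_prod_X_sub_C]
  · intro σ x hx
    have hx' : aeval (σ x) T.charpoly = 0 := by
      rw [aeval_algHom_apply, hx, map_zero]
    have h2 : b ⟨x, hmem.1 hx⟩ ≠ 0 := b.ne_zero _
    obtain ⟨i, hi⟩ : ∃ i, b ⟨x, hmem.1 hx⟩ i ≠ 0 := Function.ne_iff.1 h2
    set w := b ⟨x, hmem.1 hx⟩ with hw
    have h3 : ex Ω T (fun i => σ (w i)) = σ x • fun i => σ (w i) := by
      rw [ex_conj, hw, hb]
      funext j
      rw [Pi.smul_apply, smul_eq_mul, map_mul]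
      rfl
    have h4 := congrFun (hmain _ hx' _ h3) i
    rw [ex_conj, hmain x hx w (hb _)] at h4
    simp only [Pi.smul_apply, smul_eq_mul, map_mul] at h4
    exact (mul_right_cancel₀ ((map_ne_zero σ).2 hi) h4).symm

/-- An endomorphism which commutes with a power of `T` commutes with `T`. -/
theorem comm_of_pow (hT : Neat Ω T.charpoly) {N : ℕ} (hN : 0 < N) {P : End K (Fin n → K)}
    (hP : P * T ^ N = T ^ N * P) : P * T = T * P := by
  obtain ⟨lam, h1, -⟩ := exists_lam hT hN hP
  obtain ⟨b, hb⟩ := exists_basis (Ω := Ω) hT.separable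
  refine ex_inj (Ω := Ω) (b.ext fun x => ?_)
  have hx : aeval (x : Ω) T.charpoly = 0 := (mem_rts T.charpoly_monic.ne_zero).1 x.2
  rw [map_mul, map_mul, Module.End.mul_apply, Module.End.mul_apply, hb, map_smul,
    h1 x hx _ (hb x), map_smul, hb]
  exact smul_comm _ _ _

end nt

end Pool.Agent.H853.OS
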