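import Pool.Agent.H853.OS.Main
import Pool.Agent.H853.OS.Trf
import Pool.Graph.R_pool_sql_team_seeded_efc1946e.K1H15.BS.Thm

/-!
# The case of an element of maximal rank
-/

set_option autoImplicit false
set_option linter.unusedSectionVars false

namespace Pool.Agent.H853.OS

open Module Polynomial Pool.Agent.Y114.RM Pool.Agent.Y114.TF Pool.Agent.K1H15.BS
  Pool.Agent.K1H15.MT

theorem local_rank {Γ : Type} [Group Γ] [TopologicalSpace Γ] [IsTopologicalGroup Γ]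
    [CompactSpace Γ] {ι : Type} [Fintype ι] [DecidableEq ι] {n : ι → ℕ} {ℓ : ℕ} [Fact ℓ.Prime]
    (ρ : Reps Γ n ℓ) (hρ : Conts ρ) (𝔤 : EndSpace n ℓ) (h𝔤 : Motivic ρ 𝔤) {Ω : Type} [Field Ω]
    [Algebra ℚ_[ℓ] Ω] [IsAlgClosed Ω] (G : Subgroup (Ω ≃ₐ[ℚ_[ℓ]] Ω))
    (h1 : ∀ i, NoCommonSum (ρ i) G) (h2 : ∀ i, NoCommonDivisor (ρ i) G)
    (h3 : ∀ i j, i ≠ j → ∃ γ, ∃ a : Ω, aeval a (ρ i γ).charpoly = 0 ∧
      ∀ b : Ω, aeval b (ρ j γ).charpoly = 0 → ∀ N : ℕ, 0 < N → a ^ N ≠ b ^ N)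
    (γ : Γ) (r : ℕ) (hr : HasRank ρ γ r) (hrk : RankLE 𝔤 r) :
    Semisimple ρ ∧ TateTensorsOf ρ 𝔤 := by
  refine (rank_main ρ hρ 𝔤 h𝔤 γ r hr hrk).1.2 ⟨semisimple_of_orbits ρ G h1, ?_⟩
  rintro P ⟨Δ, hΔ, hP⟩ X hX
  obtain ⟨c, rfl⟩ := endos_of_orbits ρ G h1 h2 h3 hΔ (Y := P)
    fun s hs => LinearMap.ext fun v => hP s hs v
  exact comm_scal h𝔤 hX c

theorem hasRank_of {Γ : Type} [Group Γ] {ι : Type} {n : ι → ℕ} {ℓ : ℕ} [Fact ℓ.Prime]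
    {ρ : Reps Γ n ℓ} {γ : Γ} {P : ι → ℚ[X]} (hP : ∀ i, P i ≠ 0)
    (hchar : ∀ i, (ρ i γ).charpoly = (P i).map (algebraMap ℚ ℚ_[ℓ])) {r : ℕ}
    (hr : IndependentRoots r P) : HasRank ρ γ r := by
  obtain ⟨e₁, e₂, -⟩ := exists_pair (AlgebraicClosure ℚ_[ℓ])
  obtain ⟨z, hz, hind⟩ := hr
  have h1 : ∀ j, ∃ y : AlgebraicClosure ℚ, e₁ y = z j ∧ ∃ i, aeval y (P i) = 0 := by
    intro j
    obtain ⟨i, hi⟩ := hz j
    obtain ⟨y, hy1, hy2⟩ := exists_root e₁ (hP i) (IsAlgClosed.splits _) hi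
    exact ⟨y, hy1, i, hy2⟩
  choose y hy1 hy2 using h1
  refine ⟨fun j => e₂ (y j), fun j => ?_, fun e he => hind e ?_⟩
  · obtain ⟨i, hi⟩ := hy2 j
    refine ⟨i, ?_⟩
    rw [hchar i, aeval_map_rat, aeval_hom, hi, map_zero]
  · have h2 : e₂ (∏ j, y j ^ e j) = e₂ 1 := by
      rw [map_prod, map_one, ← he]
      exact Finset.prod_congr rfl fun j _ => map_zpow₀ e₂ _ _
    have h3 := e₂.injective h2
    rw [Finset.prod_congr rfl fun j _ => by rw [← hy1 j, ← map_zpow₀], ← map_prod, h3, map_one]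

end Pool.Agent.H853.OS
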