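import Pool.Agent.H853.OS.Irr
import Pool.Graph.R_seed8.Y114.TF.Defs

/-!
# Direct sums of irreducible representations
-/

set_option autoImplicit false
set_option linter.unusedSectionVars false

namespace Pool.Agent.H853.OS

open Module Pool.Agent.Y114.TF

section sum

variable {k : Type} [Field k] {ι : Type} [Fintype ι] [DecidableEq ι] {V : ι → Type}
  [∀ i, AddCommGroup (V i)] [∀ i, Module k (V i)] {Γ : Type} [Group Γ]
  (ρ : ∀ i, Representation k Γ (V i)) {Δ : Subgroup Γ}

theorem sumRep_apply (s : Γ) (v : ∀ i, V i) (i : ι) : sumRep ρ s v i = ρ i s (v i) := rfl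

theorem sumRep_single (s : Γ) (i : ι) (x : V i) :
    sumRep ρ s (Pi.single i x) = Pi.single i (ρ i s x) := by
  funext j
  rw [sumRep_apply]
  by_cases h : j = i
  · subst h
    rw [Pi.single_eq_same, Pi.single_eq_same]
  · rw [Pi.single_eq_of_ne h, Pi.single_eq_of_ne h, map_zero]

/-- The vectors with support in `J`. -/
def supp (k : Type) [Field k] {ι : Type} {V : ι → Type} [∀ i, AddCommGroup (V i)]
    [∀ i, Module k (V i)] (J : Finset ι) : Submodule k (∀ i, V i) where
  carrier := {v | ∀ i, i ∉ J → v i = 0}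
  add_mem' := fun {a b} ha hb i hi => by rw [Pi.add_apply, ha i hi, hb i hi, add_zero]
  zero_mem' := fun i _ => rfl
  smul_mem' := fun c v hv i hi => by rw [Pi.smul_apply, hv i hi, smul_zero]

theorem sum_semisimple (hirr : ∀ i, IrrFor (ρ i) Δ) (W : Submodule k (∀ i, V i))
    (hW : ∀ s ∈ Δ, ∀ u ∈ W, sumRep ρ s u ∈ W) :
    ∃ W' : Submodule k (∀ i, V i), (∀ s ∈ Δ, ∀ u ∈ W', sumRep ρ s u ∈ W') ∧ IsCompl W W' := by
  have hst : ∀ J : Finset ι, ∀ s ∈ Δ, ∀ u ∈ supp k (V := V) J, sumRep ρ s u ∈ supp k J := by
    intro J s _ u hu i hi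
    rw [sumRep_apply, hu i hi, map_zero]
  have h0 : ∃ J : Finset ι, W ⊓ supp k J = ⊥ := by
    refine ⟨∅, ?_⟩
    rw [eq_bot_iff]
    intro v hv
    rw [Submodule.mem_bot]
    funext i
    exact hv.2 i (Finset.notMem_empty i)
  obtain ⟨J, hJ⟩ := Set.Finite.exists_maximal (s := {J : Finset ι | W ⊓ supp k (V := V) J = ⊥})
    (Set.toFinite _) h0
  have hJ1 : W ⊓ supp k J = ⊥ := hJ.1
  refine ⟨supp k J, hst J, disjoint_iff.2 hJ1, codisjoint_iff.2 ?_⟩
  have h1 : ∀ i, ∀ x : V i, (Pi.single i x : ∀ i, V i) ∈ W ⊔ supp k J := by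
    intro i
    by_cases hi : i ∈ J
    · intro x
      refine Submodule.mem_sup_right fun j hj => ?_
      rw [Pi.single_eq_of_ne]
      rintro rfl
      exact hj hi
    · rcases hirr i ((W ⊔ supp k J).comap (LinearMap.single k V i)) (fun s hs u hu => by
        rw [Submodule.mem_comap] at hu ⊢
        have h2 : LinearMap.single k V i (ρ i s u) = sumRep ρ s (LinearMap.single k V i u) :=
          (sumRep_single ρ s i u).symm
        rw [h2]
        obtain ⟨a, ha, b, hb, hab⟩ := Submodule.mem_sup.1 hu
        rw [← hab, map_add]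
        exact Submodule.add_mem_sup (hW s hs a ha) (hst J s hs b hb)) with h2 | h2
      · exfalso
        have h3 : W ⊓ supp k (insert i J) = ⊥ := by
          rw [eq_bot_iff]
          rintro w ⟨hw1, hw2⟩
          have h4 : w - Pi.single i (w i) ∈ supp k J := by
            intro j hj
            rw [Pi.sub_apply]
            by_cases hji : j = i
            · subst hji
              rw [Pi.single_eq_same, sub_self]
            · rw [Pi.single_eq_of_ne hji, hw2 j (by
                rw [Finset.mem_insert]
                exact fun h => h.elim hji hj), sub_zero]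
          have h5 : w i ∈ (W ⊔ supp k J).comap (LinearMap.single k V i) := by
            rw [Submodule.mem_comap]
            have h6 : LinearMap.single k V i (w i) = w - (w - Pi.single i (w i)) := by
              rw [sub_sub_cancel]
              rfl
            rw [h6]
            exact Submodule.sub_mem _ (Submodule.mem_sup_left hw1) (Submodule.mem_sup_right h4)
          rw [h2, Submodule.mem_bot] at h5
          rw [h5, Pi.single_zero, sub_zero] at h4
          rw [← hJ1]
          exact ⟨hw1, h4⟩
        have h4 := hJ.2 (y := insert i J) h3 (Finset.subset_insert i J)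
        exact hi (h4 (Finset.mem_insert_self i J))
      · intro x
        have h3 : x ∈ (W ⊔ supp k J).comap (LinearMap.single k V i) := by
          rw [h2]
          exact Submodule.mem_top
        exact h3
  rw [eq_top_iff]
  intro v _
  rw [← Finset.univ_sum_single v]
  exact Submodule.sum_mem _ fun i _ => h1 i (v i)

/-- Multiplication by a scalar on each summand. -/
noncomputable def scal {k : Type} [Field k] {ι : Type} {V : ι → Type} [∀ i, AddCommGroup (V i)]
    [∀ i, Module k (V i)] (c : ι → k) : End k (∀ i, V i) :=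
  LinearMap.pi fun i => c i • LinearMap.proj i

theorem scal_apply (c : ι → k) (v : ∀ i, V i) (i : ι) : scal c v i = c i • v i := rfl

theorem sum_commutant (hs : ∀ i, ∀ P : End k (V i), (∀ s ∈ Δ, P * ρ i s = ρ i s * P) →
      ∃ a : k, P = a • 1)
    (hh : ∀ i j, i ≠ j → ∀ f : V i →ₗ[k] V j, (∀ s ∈ Δ, ∀ v, f (ρ i s v) = ρ j s (f v)) → f = 0)
    {Y : End k (∀ i, V i)} (hY : ∀ s ∈ Δ, Y * sumRep ρ s = sumRep ρ s * Y) :
    ∃ c : ι → k, Y = scal c := by
  have h1 : ∀ i, ∃ a : k, LinearMap.proj i ∘ₗ Y ∘ₗ LinearMap.single k V i = a • 1 := by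
    intro i
    refine hs i _ fun s hs => LinearMap.ext fun v => ?_
    have h2 := congrFun (LinearMap.congr_fun (hY s hs) (Pi.single i v)) i
    rw [Module.End.mul_apply, Module.End.mul_apply, sumRep_single, sumRep_apply] at h2
    exact h2
  have h2 : ∀ i j, i ≠ j → LinearMap.proj j ∘ₗ Y ∘ₗ LinearMap.single k V i = 0 := by
    intro i j hij
    refine hh i j hij _ fun s hs v => ?_
    have h2 := congrFun (LinearMap.congr_fun (hY s hs) (Pi.single i v)) j
    rw [Module.End.mul_apply, Module.End.mul_apply, sumRep_single, sumRep_apply] at h2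
    exact h2
  choose c hc using h1
  refine ⟨c, LinearMap.ext fun v => funext fun j => ?_⟩
  rw [scal_apply]
  conv_lhs => rw [← Finset.univ_sum_single v]
  rw [map_sum, Finset.sum_apply, Finset.sum_eq_single j]
  · exact LinearMap.congr_fun (hc j) (v j)
  · intro i _ hij
    exact LinearMap.congr_fun (h2 i j hij) (v i)
  · intro h
    exact absurd (Finset.mem_univ _) h

end sum

end Pool.Agent.H853.OS
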