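import Pool.Agent.H853.G2.Dens

/-!
# Tuples of independent fields with given automorphisms
-/

set_option autoImplicit false
set_option linter.unusedSectionVars false

namespace Pool.Agent.H853.OS

open Finset IntermediateField Pool.Agent.W522.C Pool.Agent.H853.G2

section tup

variable {F K : Type*} [Field F] [Field K] [Algebra F K]

theorem exists_galois [CharZero F] [IsAlgClosed K] (M : IntermediateField F K)
    [FiniteDimensional F M] :
    ∃ M' : IntermediateField F K, M ≤ M' ∧ FiniteDimensional F M' ∧ IsGalois F M' := by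
  have h1 : IsNormalClosure F M (normalClosure F M K) :=
    Algebra.IsAlgebraic.isNormalClosure_normalClosure fun x => IsAlgClosed.splits _
  have h2 : Normal F (normalClosure F M K) := h1.normal
  exact ⟨normalClosure F M K, M.le_normalClosure, inferInstance, IsGalois.mk⟩

/-- Linear independence of three fields. -/
theorem inf_le_bot {M N L : IntermediateField F K} [FiniteDimensional F M] [IsGalois F M]
    [FiniteDimensional F N] [IsGalois F N] [FiniteDimensional F L] [IsGalois F L]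
    (h1 : N ⊓ M ≤ ⊥) (h2 : L ⊓ (M ⊔ N) ≤ ⊥) : (N ⊔ L) ⊓ M ≤ ⊥ := by
  intro x hx
  obtain ⟨hxNL, hxM⟩ := hx
  set P : IntermediateField F K := (M ⊔ N) ⊔ L with hP
  have hMP : M ≤ P := le_sup_left.trans le_sup_left
  have hNP : N ≤ P := le_sup_right.trans le_sup_left
  have hLP : L ≤ P := le_sup_right
  have key : ∀ h : Gal(P/F), h ⟨x, hMP hxM⟩ = ⟨x, hMP hxM⟩ := by
    intro h
    obtain ⟨ρM, -, hρM⟩ := exists_res2 (F := F) (K := K) hMP
    obtain ⟨k1, hk1, hk1'⟩ := exists_glue2 (N := M ⊔ N) (L := N) (M := M) le_sup_right le_sup_left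
      (ρM h) 1 (by
        intro y z hyz
        have h4 : (y : K) ∈ (⊥ : IntermediateField F K) := h1 ⟨by rw [hyz]; exact z.2, y.2⟩
        obtain ⟨a, ha⟩ := IntermediateField.mem_bot.1 h4
        have hy : y = algebraMap F M a := Subtype.ext ha.symm
        rw [hy, AlgEquiv.commutes, AlgEquiv.one_apply, ← hyz, hy])
    obtain ⟨k, hk, hk'⟩ := exists_glue2 (N := P) (L := L) (M := M ⊔ N) hLP le_sup_left
      k1 1 (by
        intro y z hyz
        have h4 : (y : K) ∈ (⊥ : IntermediateField F K) := h2 ⟨by rw [hyz]; exact z.2, y.2⟩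
        obtain ⟨a, ha⟩ := IntermediateField.mem_bot.1 h4
        have hy : y = algebraMap F _ a := Subtype.ext ha.symm
        rw [hy, AlgEquiv.commutes, AlgEquiv.one_apply, ← hyz, hy])
    -- `k` is trivial on `N ⊔ L`
    have hle : N ⊔ L ≤ IntermediateField.lift (fixedField (Subgroup.zpowers k)) := by
      refine sup_le ?_ ?_
      · intro y hy
        have h3 : (⟨y, hNP hy⟩ : P) ∈ fixedField (Subgroup.zpowers k) := by
          rintro ⟨k', hk'⟩
          obtain ⟨m, rfl⟩ := Subgroup.mem_zpowers_iff.1 hk'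
          have h4 : k ⟨y, hNP hy⟩ = ⟨y, hNP hy⟩ := by
            apply Subtype.ext
            rw [hk ⟨y, (le_sup_right : N ≤ M ⊔ N) hy⟩ ⟨y, hNP hy⟩ rfl,
              hk1' ⟨y, hy⟩ ⟨y, (le_sup_right : N ≤ M ⊔ N) hy⟩ rfl]
            rfl
          have h5 : k ∈ MulAction.stabilizer Gal(P/F) (⟨y, hNP hy⟩ : P) := h4
          exact Subgroup.zpow_mem _ h5 m
        exact (IntermediateField.mem_lift (⟨y, hNP hy⟩ : P)).2 h3
      · intro y hy
        have h3 : (⟨y, hLP hy⟩ : P) ∈ fixedField (Subgroup.zpowers k) := by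
          rintro ⟨k', hk''⟩
          obtain ⟨m, rfl⟩ := Subgroup.mem_zpowers_iff.1 hk''
          have h4 : k ⟨y, hLP hy⟩ = ⟨y, hLP hy⟩ := by
            apply Subtype.ext
            rw [hk' ⟨y, hy⟩ ⟨y, hLP hy⟩ rfl]
            rfl
          have h5 : k ∈ MulAction.stabilizer Gal(P/F) (⟨y, hLP hy⟩ : P) := h4
          exact Subgroup.zpow_mem _ h5 m
        exact (IntermediateField.mem_lift (⟨y, hLP hy⟩ : P)).2 h3
    have h3 : (⟨x, hMP hxM⟩ : P) ∈ fixedField (Subgroup.zpowers k) :=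
      (IntermediateField.mem_lift (⟨x, hMP hxM⟩ : P)).1 (hle hxNL)
    have h4 : k ⟨x, hMP hxM⟩ = ⟨x, hMP hxM⟩ := h3 ⟨k, Subgroup.mem_zpowers k⟩
    have h5 : ((k ⟨x, hMP hxM⟩ : P) : K) = (h ⟨x, hMP hxM⟩ : P) := by
      rw [hk ⟨x, (le_sup_left : M ≤ M ⊔ N) hxM⟩ ⟨x, hMP hxM⟩ rfl,
        hk1 ⟨x, hxM⟩ ⟨x, (le_sup_left : M ≤ M ⊔ N) hxM⟩ rfl,
        hρM h ⟨x, hxM⟩ ⟨x, hMP hxM⟩ rfl]
    apply Subtype.ext
    rw [← h5, h4]
  have h3 := (IsGalois.mem_bot_iff_fixed (F := F) (⟨x, hMP hxM⟩ : P)).2 key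
  obtain ⟨a, ha⟩ := IntermediateField.mem_bot.1 h3
  exact IntermediateField.mem_bot.2 ⟨a, congrArg Subtype.val ha⟩

variable {J R : Type*} {L : J → IntermediateField F K} (τ : ∀ (_ : R) (j : J), Gal(L j/F))

/-- **Tuples of independent fields.** -/
theorem exists_tuple [DecidableEq R] [CharZero F] [IsAlgClosed K]
    [∀ j, FiniteDimensional F (L j)] [∀ j, IsGalois F (L j)] {B : ℕ}
    (hB : ∀ j, gsz (L j) ≤ B)
    (hdisj : ∀ M : IntermediateField F K, FiniteDimensional F M → ∃ j, L j ⊓ M ≤ ⊥)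
    (M : IntermediateField F K) [FiniteDimensional F M] (s : Finset R) :
    ∃ (f : R → J) (N : IntermediateField F K) (_ : FiniteDimensional F N) (_ : IsGalois F N)
      (g : Gal(N/F)), gsz N ≤ B ^ s.card ∧ N ⊓ M ≤ ⊥ ∧
        ∀ r ∈ s, L (f r) ≤ N ∧ ∀ (x : N) (hx : (x : K) ∈ L (f r)),
          ((g x : N) : K) = (τ r (f r) ⟨x, hx⟩ : L (f r)) := by
  obtain ⟨M', hMM', i1, i2⟩ := exists_galois M
  obtain ⟨j0, -⟩ := hdisj ⊥ inferInstance
  suffices h : ∃ (f : R → J) (N : IntermediateField F K) (_ : FiniteDimensional F N)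
      (_ : IsGalois F N) (g : Gal(N/F)), gsz N ≤ B ^ s.card ∧ N ⊓ M' ≤ ⊥ ∧
        ∀ r ∈ s, L (f r) ≤ N ∧ ∀ (x : N) (hx : (x : K) ∈ L (f r)),
          ((g x : N) : K) = (τ r (f r) ⟨x, hx⟩ : L (f r)) by
    obtain ⟨f, N, i3, i4, g, h1, h2, h3⟩ := h
    exact ⟨f, N, i3, i4, g, h1, (inf_le_inf_left N hMM').trans h2, h3⟩
  induction s using Finset.induction_on with
  | empty =>
    refine ⟨fun _ => j0, ⊥, inferInstance, inferInstance, 1, ?_, inf_le_left, ?_⟩
    · rw [card_empty, pow_zero]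
      unfold gsz
      rw [IsGalois.card_aut_eq_finrank]
      exact (IntermediateField.finrank_bot).le
    · intro r hr
      exact absurd hr (Finset.notMem_empty r)
  | insert r s hr ih =>
    obtain ⟨f, N, i3, i4, g, h1, h2, h3⟩ := ih
    obtain ⟨j, hj⟩ := hdisj (M' ⊔ N) inferInstance
    have hNj : N ⊓ L j ≤ ⊥ := by
      refine le_trans ?_ hj
      exact le_inf inf_le_right (inf_le_left.trans le_sup_right)
    obtain ⟨k, hk, hk'⟩ := exists_glue2 (N := N ⊔ L j) (L := L j) (M := N) le_sup_right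
      le_sup_left g (τ r j) (by
        intro y z hyz
        have h4 : (y : K) ∈ (⊥ : IntermediateField F K) := hNj ⟨y.2, by rw [hyz]; exact z.2⟩
        obtain ⟨a, ha⟩ := IntermediateField.mem_bot.1 h4
        have hy : y = algebraMap F N a := Subtype.ext ha.symm
        have hz : z = algebraMap F (L j) a := Subtype.ext (hyz.symm.trans ha.symm)
        rw [hy, hz, AlgEquiv.commutes, AlgEquiv.commutes]
        rfl)
    refine ⟨Function.update f r j, N ⊔ L j, inferInstance, inferInstance, k, ?_,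
      inf_le_bot h2 hj, ?_⟩
    · rw [card_insert_of_notMem hr, pow_succ]
      exact gsz_sup_le.trans (Nat.mul_le_mul h1 (hB j))
    · intro r' hr'
      by_cases hrr : r' = r
      · subst hrr
        rw [Function.update_self]
        exact ⟨le_sup_right, fun x hx => hk' ⟨x, hx⟩ x rfl⟩
      · rw [Function.update_of_ne hrr]
        have hr'' : r' ∈ s := (mem_insert.1 hr').resolve_left hrr
        obtain ⟨h4, h5⟩ := h3 r' hr''
        refine ⟨h4.trans le_sup_left, fun x hx => ?_⟩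
        rw [hk ⟨x, h4 hx⟩ x rfl]
        exact h5 ⟨x, h4 hx⟩ hx

end tup

end Pool.Agent.H853.OS
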